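import Pool.Agent.R795.Min.ES

/-!
# Permutations all of whose patterns lie in a group without the full cycle
-/

open Function Finset Equiv

namespace Pool.Agent.D0H14.CS

variable {ι : Type*}

/-- enumeration of a finite set in increasing order of labels -/
theorem exists_enum {h : ι → ℚ} (hh : Injective h) (X : Finset ι) {m : ℕ} (hm : X.card = m) :
    ∃ e : Fin m → ι, StrictMono (h ∘ e) ∧ (∀ x, x ∈ X ↔ ∃ i, e i = x) := by
  classical
  have hc : (X.image h).card = m := by rw [card_image_of_injective _ hh, hm]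
  set E := (X.image h).orderEmbOfFin hc with hEdef
  have hE : ∀ i, ∃ x ∈ X, h x = E i := fun i => by
    have := orderEmbOfFin_mem (X.image h) hc i
    exact mem_image.mp this
  choose e he1 he2 using hE
  refine ⟨e, ?_, ?_⟩
  · intro i j hij
    simp only [comp, he2]
    exact E.strictMono hij
  · intro x
    constructor
    · intro hx
      have : h x ∈ Set.range E := by
        rw [hEdef, range_orderEmbOfFin]
        exact mem_coe.mpr (mem_image_of_mem h hx)
      obtain ⟨i, hi⟩ := this
      exact ⟨i, hh (by rw [he2, hi])⟩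
    · rintro ⟨i, rfl⟩; exact he1 i

theorem exists_sort {r : ℕ} {f : Fin r → ℚ} (hf : Injective f) :
    ∃ σ : Perm (Fin r), StrictMono (f ∘ σ) :=
  ⟨Tuple.sort f, (Tuple.monotone_sort f).strictMono_of_injective
    (hf.comp (Tuple.sort f).injective)⟩

theorem strictMono_cons {n : ℕ} {a : ℚ} {f : Fin n → ℚ} (ha : ∀ i, a < f i) (hf : StrictMono f) :
    StrictMono (Fin.cons a f : Fin (n + 1) → ℚ) := by
  intro i j hij
  rcases Fin.eq_zero_or_eq_succ j with rfl | ⟨j, rfl⟩
  · exact absurd hij (Fin.not_lt_zero i)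
  · rcases Fin.eq_zero_or_eq_succ i with rfl | ⟨i, rfl⟩
    · simpa using ha j
    · simpa using hf (Fin.succ_lt_succ_iff.mp hij)

theorem strictMono_snoc {n : ℕ} {a : ℚ} {f : Fin n → ℚ} (ha : ∀ i, f i < a) (hf : StrictMono f) :
    StrictMono (Fin.snoc f a : Fin (n + 1) → ℚ) := by
  intro i j hij
  rcases Fin.eq_castSucc_or_eq_last i with ⟨i, rfl⟩ | rfl
  · rcases Fin.eq_castSucc_or_eq_last j with ⟨j, rfl⟩ | rfl
    · simpa using hf (Fin.castSucc_lt_castSucc_iff.mp hij)
    · simpa using ha i
  · exact absurd hij (not_lt.mpr (Fin.le_last j))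

/-- all `r`-patterns of the order `h'` relative to the order `h` on `X` are in `H` -/
def Rel (h h' : ι → ℚ) (X : Finset ι) {r : ℕ} (H : Subgroup (Perm (Fin r))) : Prop :=
  ∀ x : Fin r → ι, (∀ i, x i ∈ X) → StrictMono (h ∘ x) →
    ∀ σ : Perm (Fin r), StrictMono (h' ∘ x ∘ σ) → σ ∈ H

variable {h h' : ι → ℚ} {X : Finset ι}

theorem Rel.neg {r : ℕ} {H : Subgroup (Perm (Fin r))} (hR : Rel h h' X H)
    (hrev : (Fin.revPerm : Perm (Fin r)) ∈ H) : Rel h (fun x => - h' x) X H := by
  intro x hx hm σ hσ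
  have h1 : StrictMono (h' ∘ x ∘ ⇑(σ * Fin.revPerm : Perm (Fin r))) := by
    intro i j hij
    have := hσ (Fin.rev_lt_rev.mpr hij)
    simp only [comp_apply, neg_lt_neg_iff] at this
    simpa using this
  have h2 := hR x hx hm _ h1
  exact (H.mul_mem_cancel_right hrev).mp h2

theorem Rel.cons {n : ℕ} {H : Subgroup (Perm (Fin (n + 1)))} (hR : Rel h h' X H) {y : ι}
    (hy : y ∈ X) {p : Fin n → ι} (hp : ∀ i, p i ∈ X) (hyp : ∀ i, h y < h (p i))
    (hpm : StrictMono (h ∘ p)) (hpm' : StrictMono (h' ∘ p)) (hyp' : ∀ i, h' (p i) < h' y) :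
    finRotate (n + 1) ∈ H := by
  refine hR (Fin.cons y p) ?_ ?_ _ ?_
  · intro i
    rcases Fin.eq_zero_or_eq_succ i with rfl | ⟨i, rfl⟩
    · simpa using hy
    · simpa using hp i
  · have : h ∘ (Fin.cons y p : Fin (n + 1) → ι) = Fin.cons (h y) (h ∘ p) := by
      funext i
      rcases Fin.eq_zero_or_eq_succ i with rfl | ⟨i, rfl⟩ <;> simp
    rw [this]
    exact strictMono_cons hyp hpm
  · have : h' ∘ (Fin.cons y p : Fin (n + 1) → ι) ∘ ⇑(finRotate (n + 1)) =
        Fin.snoc (h' ∘ p) (h' y) := by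
      funext i
      have e := congrFun (Fin.snoc_eq_cons_rotate p y) i
      simp only [comp_apply]
      rw [← e]
      rcases Fin.eq_castSucc_or_eq_last i with ⟨i, rfl⟩ | rfl <;> simp
    rw [this]
    exact strictMono_snoc hyp' hpm'

theorem Rel.snoc {n : ℕ} {H : Subgroup (Perm (Fin (n + 1)))} (hR : Rel h h' X H) {y : ι}
    (hy : y ∈ X) {p : Fin n → ι} (hp : ∀ i, p i ∈ X) (hyp : ∀ i, h (p i) < h y)
    (hpm : StrictMono (h ∘ p)) (hpm' : StrictMono (h' ∘ p)) (hyp' : ∀ i, h' y < h' (p i)) :
    finRotate (n + 1) ∈ H := by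
  rw [← H.inv_mem_iff]
  refine hR (Fin.snoc p y) ?_ ?_ _ ?_
  · intro i
    rcases Fin.eq_castSucc_or_eq_last i with ⟨i, rfl⟩ | rfl
    · simpa using hp i
    · simpa using hy
  · have : h ∘ (Fin.snoc p y : Fin (n + 1) → ι) = Fin.snoc (h ∘ p) (h y) := by
      funext i
      rcases Fin.eq_castSucc_or_eq_last i with ⟨i, rfl⟩ | rfl <;> simp
    rw [this]
    exact strictMono_snoc hyp hpm
  · have : h' ∘ (Fin.snoc p y : Fin (n + 1) → ι) ∘ ⇑(finRotate (n + 1))⁻¹ =
        Fin.cons (h' y) (h' ∘ p) := by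
      funext i
      have e := congrFun (Fin.snoc_eq_cons_rotate p y) ((finRotate (n + 1))⁻¹ i)
      simp only [comp_apply]
      rw [e]
      have e2 : (finRotate (n + 1)) ((finRotate (n + 1))⁻¹ i) = i := by simp
      rw [e2]
      rcases Fin.eq_zero_or_eq_succ i with rfl | ⟨i, rfl⟩ <;> simp
    rw [this]
    exact strictMono_cons hyp' hpm'

theorem Rel.anti {n : ℕ} {H : Subgroup (Perm (Fin n))} (hR : Rel h h' X H)
    {p : Fin n → ι} (hp : ∀ i, p i ∈ X)
    (hpm : StrictMono (h ∘ p)) (hpm' : StrictAnti (h' ∘ p)) :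
    (Fin.revPerm : Perm (Fin n)) ∈ H := by
  refine hR p hp hpm _ ?_
  intro i j hij
  have := hpm' (Fin.rev_lt_rev.mpr hij)
  simpa using this

/-- an inversion with many common elements below and above -/
theorem Rel.inversion {n : ℕ} {H : Subgroup (Perm (Fin (n + 1)))} (hR : Rel h h' X H)
    {lo hi : ι} (hlo : lo ∈ X) (hhi : hi ∈ X) (h1 : h lo < h hi) (h2 : h' hi < h' lo)
    {P Q : Fin (n + 1) → ι} (hP : ∀ i, P i ∈ X) (hQ : ∀ i, Q i ∈ X)
    (hPm : StrictMono (h ∘ P)) (hPm' : StrictMono (h' ∘ P))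
    (hQm : StrictMono (h ∘ Q)) (hQm' : StrictMono (h' ∘ Q))
    (hPlo : ∀ i, h (P i) < h lo) (hPlo' : ∀ i, h' (P i) < h' hi)
    (hQhi : ∀ i, h hi < h (Q i)) (hQhi' : ∀ i, h' lo < h' (Q i)) :
    H = ⊤ := by
  have key : ∀ i : Fin n, swap i.castSucc i.succ ∈ H := by
    intro i
    set x : Fin (n + 1) → ι := fun j => if j.val < i.val then P j else if j.val = i.val then lo
      else if j.val = i.val + 1 then hi else Q j with hx
    have hlt : ∀ {j : Fin (n + 1)}, j.val < i.val → x j = P j := fun {j} hj => by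
      simp only [hx]; rw [if_pos hj]
    have heq : ∀ {j : Fin (n + 1)}, j.val = i.val → x j = lo := fun {j} hj => by
      simp only [hx]; rw [if_neg (by lia), if_pos hj]
    have heq' : ∀ {j : Fin (n + 1)}, j.val = i.val + 1 → x j = hi := fun {j} hj => by
      simp only [hx]; rw [if_neg (by lia), if_neg (by lia), if_pos hj]
    have hgt : ∀ {j : Fin (n + 1)}, i.val + 1 < j.val → x j = Q j := fun {j} hj => by
      simp only [hx]; rw [if_neg (by lia), if_neg (by lia), if_neg (by lia)]
    refine hR x ?_ ?_ _ ?_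
    · intro j
      rcases lt_trichotomy j.val i.val with hj | hj | hj
      · rw [hlt hj]; exact hP j
      · rw [heq hj]; exact hlo
      · rcases (Nat.succ_le_of_lt hj).eq_or_lt with hj' | hj'
        · rw [heq' hj'.symm]; exact hhi
        · rw [hgt hj']; exact hQ j
    · rw [Fin.strictMono_iff_lt_succ]
      intro j
      simp only [comp_apply]
      have hjs : j.succ.val = j.val + 1 := Fin.val_succ j
      have hjc : j.castSucc.val = j.val := Fin.val_castSucc j
      rcases lt_trichotomy (j.val + 1) i.val with hj | hj | hj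
      · rw [hlt (j := j.castSucc) (by lia), hlt (j := j.succ) (by lia)]
        exact hPm (Fin.castSucc_lt_succ)
      · rw [hlt (j := j.castSucc) (by lia), heq (j := j.succ) (by lia)]
        exact hPlo _
      · rcases (Nat.succ_le_of_lt hj).eq_or_lt with hj' | hj'
        · rw [heq (j := j.castSucc) (by lia), heq' (j := j.succ) (by lia)]
          exact h1
        · rcases (Nat.succ_le_of_lt hj').eq_or_lt with hj'' | hj''
          · rw [heq' (j := j.castSucc) (by lia), hgt (j := j.succ) (by lia)]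
            exact hQhi _
          · rw [hgt (j := j.castSucc) (by lia), hgt (j := j.succ) (by lia)]
            exact hQm (Fin.castSucc_lt_succ)
    · have sw1 : swap i.castSucc i.succ i.castSucc = i.succ := swap_apply_left _ _
      have sw2 : swap i.castSucc i.succ i.succ = i.castSucc := swap_apply_right _ _
      have sw3 : ∀ j : Fin (n + 1), j.val ≠ i.val → j.val ≠ i.val + 1 →
          swap i.castSucc i.succ j = j := by
        intro j hj hj'
        apply swap_apply_of_ne_of_ne
        · intro he; apply hj; rw [he]; rfl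
        · intro he; apply hj'; rw [he]; rfl
      have sw1' : ∀ j : Fin (n + 1), j.val = i.val → swap i.castSucc i.succ j = i.succ := by
        intro j hj
        have : j = i.castSucc := Fin.ext hj
        rw [this, sw1]
      have sw2' : ∀ j : Fin (n + 1), j.val = i.val + 1 →
          swap i.castSucc i.succ j = i.castSucc := by
        intro j hj
        have : j = i.succ := Fin.ext hj
        rw [this, sw2]
      have xs : x i.succ = hi := heq' rfl
      have xc : x i.castSucc = lo := heq rfl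
      rw [Fin.strictMono_iff_lt_succ]
      intro j
      simp only [comp_apply]
      have hjs : j.succ.val = j.val + 1 := Fin.val_succ j
      have hjc : j.castSucc.val = j.val := Fin.val_castSucc j
      rcases lt_trichotomy (j.val + 1) i.val with hj | hj | hj
      · rw [sw3 j.castSucc (by lia) (by lia), sw3 j.succ (by lia) (by lia),
          hlt (j := j.castSucc) (by lia), hlt (j := j.succ) (by lia)]
        exact hPm' (Fin.castSucc_lt_succ)
      · rw [sw3 j.castSucc (by lia) (by lia), sw1' j.succ (by lia), xs,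
          hlt (j := j.castSucc) (by lia)]
        exact hPlo' _
      · rcases (Nat.succ_le_of_lt hj).eq_or_lt with hj' | hj'
        · rw [sw1' j.castSucc (by lia), sw2' j.succ (by lia), xs, xc]
          exact h2
        · rcases (Nat.succ_le_of_lt hj').eq_or_lt with hj'' | hj''
          · rw [sw2' j.castSucc (by lia), sw3 j.succ (by lia) (by lia), xc,
              hgt (j := j.succ) (by lia)]
            exact hQhi' _
          · rw [sw3 j.castSucc (by lia) (by lia), sw3 j.succ (by lia) (by lia),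
              hgt (j := j.castSucc) (by lia), hgt (j := j.succ) (by lia)]
            exact hQm' (Fin.castSucc_lt_succ)
  rw [eq_top_iff]
  intro σ _
  have hσ : σ ∈ Submonoid.closure (Set.range fun i : Fin n => swap i.castSucc i.succ) := by
    rw [Perm.mclosure_swap_castSucc_succ]; exact Submonoid.mem_top σ
  have : Submonoid.closure (Set.range fun i : Fin n => swap i.castSucc i.succ) ≤
      H.toSubmonoid := by
    rw [Submonoid.closure_le]
    rintro _ ⟨i, rfl⟩
    exact key i
  exact this hσ

/-- size of the sequences used in `mid` -/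
def Lsz (T n : ℕ) : ℕ := T + 4 * (n + 1) + 1

theorem mid_inc {n : ℕ} {H : Subgroup (Perm (Fin (n + 1)))} (hR : Rel h h' X H)
    (hh : Injective h) (hh' : Injective h') (hc : finRotate (n + 1) ∉ H) {T : ℕ} {v : ℚ}
    {G : ℕ → ι}
    (hG : ∀ i < 2 * Lsz T n, G i ∈ X)
    (hm : ∀ i j, i < j → j < 2 * Lsz T n → h (G i) < h (G j))
    (hm' : ∀ i j, i < j → j < 2 * Lsz T n → h' (G i) < h' (G j))
    (hv1 : ∀ i < Lsz T n, h (G i) < v) (hv2 : ∀ i, Lsz T n ≤ i → i < 2 * Lsz T n → v < h (G i)) :
    ∃ u1 u2 : ℚ, u1 < v ∧ v < u2 ∧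
      (∀ y ∈ X, u1 < h y → h y < u2 → ∀ x ∈ X, (h x < h y ↔ h' x < h' y)) ∧
      T ≤ (X.filter fun y => u1 < h y ∧ h y < v).card ∧
      T ≤ (X.filter fun y => v < h y ∧ h y < u2).card := by
  classical
  set L := Lsz T n with hL
  have hLe : L = T + 4 * (n + 1) + 1 := rfl
  have J1 : ∀ y ∈ X, ∀ s, s + n < 2 * L → h y < h (G s) → h' y < h' (G (s + n)) := by
    intro y hy s hs hys
    by_contra hcon
    push Not at hcon
    apply hc
    refine hR.cons hy (p := fun i : Fin n => G (s + i.val)) ?_ ?_ ?_ ?_ ?_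
    · intro i; exact hG _ (by lia)
    · intro i
      rcases Nat.eq_zero_or_pos i.val with h0 | h0
      · rw [h0]; exact hys
      · exact hys.trans (hm _ _ (by lia) (by lia))
    · intro i j hij
      exact hm _ _ (by have := Fin.lt_def.mp hij; lia) (by lia)
    · intro i j hij
      exact hm' _ _ (by have := Fin.lt_def.mp hij; lia) (by lia)
    · intro i
      exact (hm' _ _ (by lia) hs).trans_le hcon
  have J2 : ∀ y ∈ X, ∀ s, s + n < 2 * L → h (G (s + n)) < h y → h' (G s) < h' y := by
    intro y hy s hs hys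
    by_contra hcon
    push Not at hcon
    apply hc
    refine hR.snoc hy (p := fun i : Fin n => G (s + 1 + i.val)) ?_ ?_ ?_ ?_ ?_
    · intro i; exact hG _ (by lia)
    · intro i
      rcases (show i.val + 1 ≤ n from i.isLt).eq_or_lt with h0 | h0
      · have : s + 1 + i.val = s + n := by lia
        rw [this]; exact hys
      · exact (hm _ _ (by lia) (by lia)).trans hys
    · intro i j hij
      exact hm _ _ (by have := Fin.lt_def.mp hij; lia) (by lia)
    · intro i j hij
      exact hm' _ _ (by have := Fin.lt_def.mp hij; lia) (by lia)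
    · intro i
      exact hcon.trans_lt (hm' _ _ (by lia) (by lia))
  -- no inversions
  have noinv : ∀ lo ∈ X, ∀ hi ∈ X, h lo < h hi →
      ((h (G (4 * (n + 1))) < h lo ∧ h lo < h (G (2 * L - 1 - 4 * (n + 1)))) ∨
       (h (G (4 * (n + 1))) < h hi ∧ h hi < h (G (2 * L - 1 - 4 * (n + 1))))) →
      h' lo < h' hi := by
    intro lo hlo hi hhi hlh hC
    by_contra hcon
    have hne : h' lo ≠ h' hi := fun he => by
      rw [hh' he] at hlh; exact lt_irrefl _ hlh
    have h2 : h' hi < h' lo := lt_of_le_of_ne (not_lt.mp hcon) hne.symm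
    by_cases hA : h lo < h (G (2 * (n + 1)))
    · have a1 := J1 lo hlo (2 * (n + 1)) (by lia) hA
      have a2 : h (G (4 * (n + 1))) < h hi := by
        rcases hC with hC | hC
        · exact hC.1.trans hlh
        · exact hC.1
      have a3 : 4 * (n + 1) - n + n = 4 * (n + 1) := by lia
      have a4 := J2 hi hhi (4 * (n + 1) - n) (by lia) (by rw [a3]; exact a2)
      have a5 : h' (G (2 * (n + 1) + n)) < h' (G (4 * (n + 1) - n)) :=
        hm' _ _ (by lia) (by lia)
      exact absurd (a1.trans (a5.trans a4)) hcon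
    push Not at hA
    by_cases hB : h (G (2 * L - 1 - 2 * (n + 1))) < h hi
    · have a3 : 2 * L - 1 - 2 * (n + 1) - n + n = 2 * L - 1 - 2 * (n + 1) := by lia
      have a1 := J2 hi hhi (2 * L - 1 - 2 * (n + 1) - n) (by lia) (by rw [a3]; exact hB)
      have a2 : h lo < h (G (2 * L - 1 - 4 * (n + 1))) := by
        rcases hC with hC | hC
        · exact hC.2
        · exact hlh.trans hC.2
      have a4 := J1 lo hlo _ (by lia) a2
      rcases (show 2 * L - 1 - 4 * (n + 1) + n ≤ 2 * L - 1 - 2 * (n + 1) - n by lia).eq_or_lt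
        with he | hl
      · rw [he] at a4; exact absurd (a4.trans a1) hcon
      · exact absurd (a4.trans ((hm' _ _ hl (by lia)).trans a1)) hcon
    push Not at hB
    have htop : H = ⊤ := by
      refine hR.inversion hlo hhi hlh h2 (P := fun i => G i.val)
        (Q := fun i => G (2 * L - (n + 1) + i.val)) ?_ ?_ ?_ ?_ ?_ ?_ ?_ ?_ ?_ ?_
      · intro i; exact hG _ (by lia)
      · intro i; exact hG _ (by lia)
      · intro i j hij; exact hm _ _ (Fin.lt_def.mp hij) (by lia)
      · intro i j hij; exact hm' _ _ (Fin.lt_def.mp hij) (by lia)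
      · intro i j hij; exact hm _ _ (by have := Fin.lt_def.mp hij; lia) (by lia)
      · intro i j hij; exact hm' _ _ (by have := Fin.lt_def.mp hij; lia) (by lia)
      · intro i; exact (hm _ _ (by lia) (by lia)).trans_le hA
      · intro i
        have a3 : (n + 1) + n < 2 * (n + 1) := by lia
        have a4 : h (G ((n + 1) + n)) < h hi :=
          ((hm _ _ a3 (by lia)).trans_le hA).trans hlh
        have a5 := J2 hi hhi (n + 1) (by lia) a4
        exact (hm' _ _ (by lia) (by lia)).trans a5
      · intro i; exact hB.trans_lt (hm _ _ (by lia) (by lia))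
      · intro i
        have a5 := J1 lo hlo (2 * L - 1 - 2 * (n + 1)) (by lia) (hlh.trans_le hB)
        exact a5.trans (hm' _ _ (by lia) (by lia))
    rw [htop] at hc
    exact hc (Subgroup.mem_top _)
  refine ⟨h (G (4 * (n + 1))), h (G (2 * L - 1 - 4 * (n + 1))), hv1 _ (by lia),
    hv2 _ (by lia) (by lia), ?_, ?_, ?_⟩
  · intro y hy hy1 hy2 x hx
    constructor
    · intro hxy
      exact noinv x hx y hy hxy (Or.inr ⟨hy1, hy2⟩)
    · intro hxy
      by_contra hcon
      have hne : h y ≠ h x := by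
        intro he
        rw [hh he] at hxy
        exact lt_irrefl _ hxy
      have h3 := noinv y hy x hx (lt_of_le_of_ne (not_lt.mp hcon) hne) (Or.inl ⟨hy1, hy2⟩)
      exact absurd hxy (not_lt.mpr h3.le)
  · have : T = ((range T).image fun i => G (4 * (n + 1) + 1 + i)).card := by
      rw [card_image_of_injOn, card_range]
      intro i hi j hj hij
      simp only [coe_range, Set.mem_Iio] at hi hj
      rcases lt_trichotomy i j with h3 | h3 | h3
      · have := hm (4 * (n + 1) + 1 + i) (4 * (n + 1) + 1 + j) (by lia) (by lia)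
        simp only at hij
        rw [hij] at this; exact absurd this (lt_irrefl _)
      · exact h3
      · have := hm (4 * (n + 1) + 1 + j) (4 * (n + 1) + 1 + i) (by lia) (by lia)
        simp only at hij
        rw [hij] at this; exact absurd this (lt_irrefl _)
    conv_lhs => rw [this]
    apply card_le_card
    intro y hy
    obtain ⟨i, hi, rfl⟩ := mem_image.mp hy
    rw [mem_range] at hi
    rw [mem_filter]
    exact ⟨hG _ (by lia), hm _ _ (by lia) (by lia), hv1 _ (by lia)⟩
  · have : T = ((range T).image fun i => G (L + i)).card := by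
      rw [card_image_of_injOn, card_range]
      intro i hi j hj hij
      simp only [coe_range, Set.mem_Iio] at hi hj
      rcases lt_trichotomy i j with h3 | h3 | h3
      · have := hm (L + i) (L + j) (by lia) (by lia)
        simp only at hij
        rw [hij] at this; exact absurd this (lt_irrefl _)
      · exact h3
      · have := hm (L + j) (L + i) (by lia) (by lia)
        simp only at hij
        rw [hij] at this; exact absurd this (lt_irrefl _)
    conv_lhs => rw [this]
    apply card_le_card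
    intro y hy
    obtain ⟨i, hi, rfl⟩ := mem_image.mp hy
    rw [mem_range] at hi
    rw [mem_filter]
    exact ⟨hG _ (by lia), hv2 _ (by lia) (by lia), hm _ _ (by lia) (by lia)⟩

theorem es_seq {q : ℕ} {S : Finset ι} (hS : q * q < S.card) (hh : Injective h)
    (hh' : Injective h') :
    ∃ P : ℕ → ι, (∀ i ≤ q, P i ∈ S) ∧ (∀ i j, i < j → j ≤ q → h (P i) < h (P j)) ∧
      ((∀ i j, i < j → j ≤ q → h' (P i) < h' (P j)) ∨
        (∀ i j, i < j → j ≤ q → h' (P j) < h' (P i))) := by
  classical
  obtain ⟨e, he1, he2⟩ := exists_enum hh S rfl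
  have heinj : Injective e := fun a b hab => he1.injective (by simp [hab])
  have key : ∀ t : Finset (Fin S.card), q < t.card →
      ∃ P : ℕ → Fin S.card, (∀ i ≤ q, P i ∈ t) ∧ (∀ i j, i < j → j ≤ q → P i < P j) := by
    intro t ht
    refine ⟨fun i => t.orderEmbOfFin rfl ⟨min i q, by lia⟩, fun i _ => orderEmbOfFin_mem _ _ _,
      fun i j hij hj => ?_⟩
    rw [OrderEmbedding.lt_iff_lt, Fin.lt_def]
    simp only
    lia
  have hcard : q * q < Fintype.card (Fin S.card) := by simpa using hS
  rcases Pool.Agent.R795.Min.erdos_szekeres hcard (hh'.comp heinj) with ⟨t, ht, hm⟩ | ⟨t, ht, hm⟩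
  · obtain ⟨P, hP1, hP2⟩ := key t ht
    refine ⟨fun i => e (P i), fun i _ => (he2 _).mpr ⟨_, rfl⟩, fun i j hij hj => ?_, Or.inl ?_⟩
    · exact he1 (hP2 i j hij hj)
    · intro i j hij hj
      exact hm (hP1 i (by lia)) (hP1 j hj) (hP2 i j hij hj)
  · obtain ⟨P, hP1, hP2⟩ := key t ht
    refine ⟨fun i => e (P i), fun i _ => (he2 _).mpr ⟨_, rfl⟩, fun i j hij hj => ?_, Or.inr ?_⟩
    · exact he1 (hP2 i j hij hj)
    · intro i j hij hj
      exact hm (hP1 i (by lia)) (hP1 j hj) (hP2 i j hij hj)

/-- two increasing sequences, on both sides of the cut -/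
theorem mid_inc_inc {n : ℕ} {H : Subgroup (Perm (Fin (n + 1)))} (hR : Rel h h' X H)
    (hh : Injective h) (hh' : Injective h') (hc : finRotate (n + 1) ∉ H) {T : ℕ} {v : ℚ}
    {P Q : ℕ → ι}
    (hP : ∀ i < 2 * Lsz T n, P i ∈ X) (hQ : ∀ i < 2 * Lsz T n, Q i ∈ X)
    (hPm : ∀ i j, i < j → j < 2 * Lsz T n → h (P i) < h (P j))
    (hPm' : ∀ i j, i < j → j < 2 * Lsz T n → h' (P i) < h' (P j))
    (hQm : ∀ i j, i < j → j < 2 * Lsz T n → h (Q i) < h (Q j))
    (hQm' : ∀ i j, i < j → j < 2 * Lsz T n → h' (Q i) < h' (Q j))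
    (hv1 : ∀ i < 2 * Lsz T n, h (P i) < v) (hv2 : ∀ i < 2 * Lsz T n, v < h (Q i)) :
    ∃ u1 u2 : ℚ, u1 < v ∧ v < u2 ∧
      (∀ y ∈ X, u1 < h y → h y < u2 → ∀ x ∈ X, (h x < h y ↔ h' x < h' y)) ∧
      T ≤ (X.filter fun y => u1 < h y ∧ h y < v).card ∧
      T ≤ (X.filter fun y => v < h y ∧ h y < u2).card := by
  classical
  set L := Lsz T n with hL
  have hLe : L = T + 4 * (n + 1) + 1 := rfl
  by_cases hcmp : h' (P (L - 1)) < h' (Q L)
  · have e1 : ∀ {i}, i < L → (if i < L then P i else Q i) = P i := fun {i} hi => if_pos hi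
    have e2 : ∀ {i}, L ≤ i → (if i < L then P i else Q i) = Q i := fun {i} hi =>
      if_neg (by lia)
    refine mid_inc hR hh hh' hc (G := fun i => if i < L then P i else Q i) ?_ ?_ ?_ ?_ ?_
    · intro i hi
      rcases lt_or_ge i L with h1 | h1
      · rw [e1 h1]; exact hP i hi
      · rw [e2 h1]; exact hQ i hi
    · intro i j hij hj
      rcases lt_or_ge j L with h1 | h1
      · rw [e1 h1, e1 (hij.trans h1)]; exact hPm i j hij hj
      · rcases lt_or_ge i L with h2 | h2
        · rw [e2 h1, e1 h2]; exact (hv1 i (by lia)).trans (hv2 j hj)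
        · rw [e2 h1, e2 h2]; exact hQm i j hij hj
    · intro i j hij hj
      rcases lt_or_ge j L with h1 | h1
      · rw [e1 h1, e1 (hij.trans h1)]; exact hPm' i j hij hj
      · rcases lt_or_ge i L with h2 | h2
        · rw [e2 h1, e1 h2]
          have a1 : h' (P i) ≤ h' (P (L - 1)) := by
            rcases (show i ≤ L - 1 by lia).eq_or_lt with h3 | h3
            · rw [h3]
            · exact (hPm' _ _ h3 (by lia)).le
          have a2 : h' (Q L) ≤ h' (Q j) := by
            rcases h1.eq_or_lt with h3 | h3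
            · rw [h3]
            · exact (hQm' _ _ h3 hj).le
          exact a1.trans_lt (hcmp.trans_le a2)
        · rw [e2 h1, e2 h2]; exact hQm' i j hij hj
    · intro i hi
      rw [e1 hi]; exact hv1 i (by lia)
    · intro i hi hi2
      rw [e2 hi]; exact hv2 i hi2
  · exfalso
    push Not at hcmp
    apply hc
    refine hR.cons (hP (L - 1) (by lia)) (p := fun i : Fin n => Q i.val) ?_ ?_ ?_ ?_ ?_
    · intro i; exact hQ _ (by lia)
    · intro i; exact (hv1 _ (by lia)).trans (hv2 _ (by lia))
    · intro i j hij; exact hQm _ _ (Fin.lt_def.mp hij) (by lia)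
    · intro i j hij; exact hQm' _ _ (Fin.lt_def.mp hij) (by lia)
    · intro i; exact (hQm' _ _ (by lia) (by lia)).trans_le hcmp

/-- If all patterns of `h'` relative to `h` are in a group without the full cycle, then near any
cut far from both ends the two orders agree up to reversal. -/
theorem mid {n : ℕ} {H : Subgroup (Perm (Fin (n + 1)))} (hR : Rel h h' X H)
    (hh : Injective h) (hh' : Injective h') (hc : finRotate (n + 1) ∉ H) {T : ℕ} {v : ℚ}
    (c1 : (2 * Lsz T n) * (2 * Lsz T n) < (X.filter fun y => h y < v).card)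
    (c2 : (2 * Lsz T n) * (2 * Lsz T n) < (X.filter fun y => v < h y).card) :
    ∃ u1 u2 : ℚ, u1 < v ∧ v < u2 ∧
      ((∀ y ∈ X, u1 < h y → h y < u2 → ∀ x ∈ X, (h x < h y ↔ h' x < h' y)) ∨
       (∀ y ∈ X, u1 < h y → h y < u2 → ∀ x ∈ X, (h x < h y ↔ h' y < h' x))) ∧
      T ≤ (X.filter fun y => u1 < h y ∧ h y < v).card ∧
      T ≤ (X.filter fun y => v < h y ∧ h y < u2).card := by
  classical
  obtain ⟨P, hP1, hPm, hP⟩ := es_seq c1 hh hh'
  obtain ⟨Q, hQ1, hQm, hQ⟩ := es_seq c2 hh hh'
  set L := Lsz T n with hL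
  have hLe : L = T + 4 * (n + 1) + 1 := rfl
  simp only [mem_filter] at hP1 hQ1
  have hninj : Injective fun x => - h' x := fun a b hab => hh' (neg_injective hab)
  have revP : (∀ i j, i < j → j ≤ 2 * L → h' (P j) < h' (P i)) →
      (Fin.revPerm : Perm (Fin (n + 1))) ∈ H := by
    intro hP
    refine hR.anti (p := fun i => P i.val) (fun i => (hP1 _ (by lia)).1) ?_ ?_
    · intro i j hij; exact hPm _ _ (Fin.lt_def.mp hij) (by lia)
    · intro i j hij; exact hP _ _ (Fin.lt_def.mp hij) (by lia)
  have revQ : (∀ i j, i < j → j ≤ 2 * L → h' (Q j) < h' (Q i)) →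
      (Fin.revPerm : Perm (Fin (n + 1))) ∈ H := by
    intro hQ
    refine hR.anti (p := fun i => Q i.val) (fun i => (hQ1 _ (by lia)).1) ?_ ?_
    · intro i j hij; exact hQm _ _ (Fin.lt_def.mp hij) (by lia)
    · intro i j hij; exact hQ _ _ (Fin.lt_def.mp hij) (by lia)
  rcases hP with hP | hP <;> rcases hQ with hQ | hQ
  · obtain ⟨u1, u2, a1, a2, a3, a4, a5⟩ := mid_inc_inc hR hh hh' hc (T := T) (v := v)
      (P := P) (Q := Q)
      (fun i hi => (hP1 i hi.le).1) (fun i hi => (hQ1 i hi.le).1)
      (fun i j hij hj => hPm i j hij hj.le) (fun i j hij hj => hP i j hij hj.le)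
      (fun i j hij hj => hQm i j hij hj.le) (fun i j hij hj => hQ i j hij hj.le)
      (fun i hi => (hP1 i hi.le).2) (fun i hi => (hQ1 i hi.le).2)
    exact ⟨u1, u2, a1, a2, Or.inl a3, a4, a5⟩
  · exfalso
    have hR' := hR.neg (revQ hQ)
    by_cases hcmp : h' (P 0) < h' (Q (n + 1))
    · apply hc
      refine hR'.cons (hP1 0 (by lia)).1 (p := fun i : Fin n => Q i.val) ?_ ?_ ?_ ?_ ?_
      · intro i; exact (hQ1 _ (by lia)).1
      · intro i; exact (hP1 _ (by lia)).2.trans (hQ1 _ (by lia)).2
      · intro i j hij; exact hQm _ _ (Fin.lt_def.mp hij) (by lia)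
      · intro i j hij; exact neg_lt_neg (hQ _ _ (Fin.lt_def.mp hij) (by lia))
      · intro i; exact neg_lt_neg (hcmp.trans (hQ _ _ (by lia) (by lia)))
    · push Not at hcmp
      apply hc
      refine hR.snoc (hQ1 (n + 1) (by lia)).1 (p := fun i : Fin n => P (i.val + 1)) ?_ ?_ ?_ ?_ ?_
      · intro i; exact (hP1 _ (by lia)).1
      · intro i; exact (hP1 _ (by lia)).2.trans (hQ1 _ (by lia)).2
      · intro i j hij
        exact hPm _ _ (by have := Fin.lt_def.mp hij; lia) (by lia)
      · intro i j hij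
        exact hP _ _ (by have := Fin.lt_def.mp hij; lia) (by lia)
      · intro i; exact hcmp.trans_lt (hP _ _ (by lia) (by lia))
  · exfalso
    have hR' := hR.neg (revP hP)
    by_cases hcmp : h' (Q (n + 1)) < h' (P 0)
    · apply hc
      refine hR.cons (hP1 0 (by lia)).1 (p := fun i : Fin n => Q i.val) ?_ ?_ ?_ ?_ ?_
      · intro i; exact (hQ1 _ (by lia)).1
      · intro i; exact (hP1 _ (by lia)).2.trans (hQ1 _ (by lia)).2
      · intro i j hij; exact hQm _ _ (Fin.lt_def.mp hij) (by lia)
      · intro i j hij; exact hQ _ _ (Fin.lt_def.mp hij) (by lia)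
      · intro i; exact (hQ _ _ (by lia) (by lia)).trans hcmp
    · push Not at hcmp
      apply hc
      refine hR'.snoc (hQ1 (n + 1) (by lia)).1 (p := fun i : Fin n => P (i.val + 1))
        ?_ ?_ ?_ ?_ ?_
      · intro i; exact (hP1 _ (by lia)).1
      · intro i; exact (hP1 _ (by lia)).2.trans (hQ1 _ (by lia)).2
      · intro i j hij
        exact hPm _ _ (by have := Fin.lt_def.mp hij; lia) (by lia)
      · intro i j hij
        exact neg_lt_neg (hP _ _ (by have := Fin.lt_def.mp hij; lia) (by lia))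
      · intro i; exact neg_lt_neg ((hP _ _ (by lia) (by lia)).trans_le hcmp)
  · have hR' := hR.neg (revQ hQ)
    obtain ⟨u1, u2, a1, a2, a3, a4, a5⟩ := mid_inc_inc hR' hh hninj hc (T := T) (v := v)
      (P := P) (Q := Q)
      (fun i hi => (hP1 i hi.le).1) (fun i hi => (hQ1 i hi.le).1)
      (fun i j hij hj => hPm i j hij hj.le) (fun i j hij hj => neg_lt_neg (hP i j hij hj.le))
      (fun i j hij hj => hQm i j hij hj.le) (fun i j hij hj => neg_lt_neg (hQ i j hij hj.le))
      (fun i hi => (hP1 i hi.le).2) (fun i hi => (hQ1 i hi.le).2)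
    refine ⟨u1, u2, a1, a2, Or.inr ?_, a4, a5⟩
    intro y hy h1 h2 x hx
    rw [a3 y hy h1 h2 x hx, neg_lt_neg_iff]

end Pool.Agent.D0H14.CS
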