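import Pool.Agent.R795.Min.Main
import Pool.Agent.D0H14.CS.Mid

/-!
# Orders of the arguments and the group of irrelevant rearrangements of the singletons
-/

open Function Finset Equiv Pool.Agent.R795.Min

namespace Pool.Agent.D0H14.CS

variable {A B : Type} {N : ℕ}

/-- value of `f` at the tuple obtained from `a` by listing the positions by increasing label -/
noncomputable def Val (f : (Fin N → A) → B) (h : Fin N → ℚ) (a : Fin N → A) : B :=
  f (fun k => a (Tuple.sort h k))

theorem sort_strict {h : Fin N → ℚ} (hh : Injective h) : StrictMono (h ∘ Tuple.sort h) :=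
  (Tuple.monotone_sort h).strictMono_of_injective (hh.comp (Tuple.sort h).injective)

theorem sort_symm_lt {h : Fin N → ℚ} (hh : Injective h) (p q : Fin N) :
    (Tuple.sort h).symm p < (Tuple.sort h).symm q ↔ h p < h q := by
  have := (sort_strict hh).lt_iff_lt (a := (Tuple.sort h).symm p) (b := (Tuple.sort h).symm q)
  simpa using this.symm

/-- extension of a partial injection -/
theorem exists_perm_extend {r : ℕ} {x y : Fin r → Fin N} (hx : Injective x) (hy : Injective y) :
    ∃ π : Perm (Fin N), ∀ i, π (x i) = y i := by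
  classical
  set e : {p // p ∈ Set.range x} ≃ {p // p ∈ Set.range y} :=
    (Equiv.ofInjective x hx).symm.trans (Equiv.ofInjective y hy) with he
  refine ⟨e.extendSubtype, fun i => ?_⟩
  rw [Equiv.extendSubtype_apply_of_mem e (x i) ⟨i, rfl⟩]
  have : (⟨x i, ⟨i, rfl⟩⟩ : {p // p ∈ Set.range x}) = Equiv.ofInjective x hx i := rfl
  rw [this, he]
  simp

theorem exists_label {r : ℕ} {z : Fin r → Fin N} (hz : Injective z) :
    ∃ h : Fin N → ℚ, Injective h ∧ StrictMono (h ∘ z) := by
  classical
  refine ⟨fun p => if hp : ∃ i, z i = p then ((hp.choose.val : ℕ) : ℚ) else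
    ((r + p.val : ℕ) : ℚ), ?_, ?_⟩
  · intro p q hpq
    simp only at hpq
    by_cases hp : ∃ i, z i = p <;> by_cases hq : ∃ i, z i = q
    · rw [dif_pos hp, dif_pos hq] at hpq
      have h1 : hp.choose = hq.choose := Fin.ext (by exact_mod_cast hpq)
      rw [← hp.choose_spec, ← hq.choose_spec, h1]
    · rw [dif_pos hp, dif_neg hq] at hpq
      have h1 : hp.choose.val = r + q.val := by exact_mod_cast hpq
      have := hp.choose.isLt
      lia
    · rw [dif_neg hp, dif_pos hq] at hpq
      have h1 : r + p.val = hq.choose.val := by exact_mod_cast hpq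
      have := hq.choose.isLt
      lia
    · rw [dif_neg hp, dif_neg hq] at hpq
      have h1 : r + p.val = r + q.val := by exact_mod_cast hpq
      exact Fin.ext (by lia)
  · intro i j hij
    have hi : ∃ i', z i' = z i := ⟨i, rfl⟩
    have hj : ∃ j', z j' = z j := ⟨j, rfl⟩
    simp only [comp_apply, dif_pos hi, dif_pos hj]
    rw [hz hi.choose_spec, hz hj.choose_spec]
    exact_mod_cast hij

variable [DecidableEq A]

theorem Val_eq {f : (Fin N → A) → B} (hf : DetCS f) {h : Fin N → ℚ} (hh : Injective h)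
    (a : Fin N → A) (τ : Perm (Fin N))
    (hτ : ∀ x y, IsSing a (τ x) → IsSing a (τ y) → x < y → h (τ x) < h (τ y)) :
    f (fun k => a (τ k)) = Val f h a := by
  unfold Val
  have e : (fun k => a (τ k)) = fun k =>
      (fun k => a (Tuple.sort h k)) ((τ.trans (Tuple.sort h).symm) k) := by
    funext k; simp
  rw [e]
  refine hf.comp (fun k => a (Tuple.sort h k)) (τ.trans (Tuple.sort h).symm) ?_
  intro x y hx hy hxy
  rw [isSing_comp] at hx hy
  simp only [Equiv.trans_apply, Equiv.apply_symm_apply] at hx hy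
  simp only [Equiv.trans_apply]
  rw [sort_symm_lt hh]
  exact hτ x y hx hy hxy

theorem Val_congr {f : (Fin N → A) → B} (hf : DetCS f) {h h' : Fin N → ℚ} (hh : Injective h)
    (hh' : Injective h') (a : Fin N → A)
    (hl : ∀ p q, IsSing a p → IsSing a q → h p < h q → h' p < h' q) :
    Val f h a = Val f h' a := by
  apply Val_eq hf hh'
  intro x y hx hy hxy
  exact hl _ _ hx hy (sort_strict hh hxy)

theorem Val_congr_enum {f : (Fin N → A) → B} (hf : DetCS f) {h h' : Fin N → ℚ}
    (hh : Injective h) (hh' : Injective h') (a : Fin N → A) {r : ℕ} {y : Fin r → Fin N}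
    (hy : ∀ p, IsSing a p ↔ ∃ i, y i = p) (h1 : StrictMono (h ∘ y)) (h2 : StrictMono (h' ∘ y)) :
    Val f h a = Val f h' a := by
  apply Val_congr hf hh hh'
  intro p q hp hq hpq
  obtain ⟨i, rfl⟩ := (hy p).mp hp
  obtain ⟨j, rfl⟩ := (hy q).mp hq
  exact h2 (h1.lt_iff_lt.mp hpq)

/-- The rearrangements of `r` singletons which do not change the value of `f`. -/
def Gam {f : (Fin N → A) → B} (hf : DetCS f) (r : ℕ) : Subgroup (Perm (Fin r)) where
  carrier := {σ | ∀ (a : Fin N → A) (y : Fin r → Fin N), Injective y →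
    (∀ p, IsSing a p ↔ ∃ i, y i = p) → ∀ h h' : Fin N → ℚ, Injective h → Injective h' →
    StrictMono (h ∘ y) → StrictMono (h' ∘ y ∘ σ) → Val f h a = Val f h' a}
  one_mem' := by
    intro a y _ hy2 h h' hh hh' h1 h2
    exact Val_congr_enum hf hh hh' a hy2 h1 h2
  mul_mem' := by
    intro σ1 σ2 hσ1 hσ2 a y hy1 hy2 h h' hh hh' h1 h2
    obtain ⟨k, hk1, hk2⟩ := exists_label (z := y ∘ σ1) (hy1.comp σ1.injective)
    rw [hσ1 a y hy1 hy2 h k hh hk1 h1 hk2]
    refine hσ2 a (y ∘ σ1) (hy1.comp σ1.injective) ?_ k h' hk1 hh' hk2 h2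
    intro p
    rw [hy2]
    constructor
    · rintro ⟨i, rfl⟩; exact ⟨σ1.symm i, by simp⟩
    · rintro ⟨i, rfl⟩; exact ⟨σ1 i, rfl⟩
  inv_mem' := by
    intro σ hσ a y hy1 hy2 h h' hh hh' h1 h2
    symm
    refine hσ a (y ∘ ⇑σ⁻¹) (hy1.comp (σ⁻¹).injective) ?_ h' h hh' hh h2 ?_
    · intro p
      rw [hy2]
      constructor
      · rintro ⟨i, rfl⟩; exact ⟨σ i, by simp⟩
      · rintro ⟨i, rfl⟩; exact ⟨σ⁻¹ i, rfl⟩
    · have : h ∘ (y ∘ ⇑σ⁻¹) ∘ ⇑σ = h ∘ y := by funext i; simp
      rw [this]; exact h1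

theorem Val_of_mem_Gam {f : (Fin N → A) → B} (hf : DetCS f) {r : ℕ} {σ : Perm (Fin r)}
    (hσ : σ ∈ Gam hf r) (a : Fin N → A) {y : Fin r → Fin N}
    (hy : ∀ p, IsSing a p ↔ ∃ i, y i = p) {h h' : Fin N → ℚ} (hh : Injective h)
    (hh' : Injective h') (h1 : StrictMono (h ∘ y)) (h2 : StrictMono (h' ∘ y ∘ σ)) :
    Val f h a = Val f h' a :=
  hσ a y (Injective.of_comp h1.injective) hy h h' hh hh' h1 h2

/-- The order given by the labels `h` computes `g` from `f` on all tuples whose singletons are at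
positions in `X`. -/
def Valid (f g : (Fin N → A) → B) (h : Fin N → ℚ) (X : Finset (Fin N)) : Prop :=
  ∀ a : Fin N → A, (∀ i, IsSing a i → i ∈ X) → g a = Val f h a

omit [DecidableEq A] in
theorem Valid.mono {f g : (Fin N → A) → B} {h : Fin N → ℚ} {X X' : Finset (Fin N)}
    (hv : Valid f g h X) (hX : X' ⊆ X) : Valid f g h X' :=
  fun a ha => hv a fun i hi => hX (ha i hi)

theorem mem_Gam_of_valid {f g : (Fin N → A) → B} (hf : DetCS f) {h h' : Fin N → ℚ}
    (hh : Injective h) (hh' : Injective h') {X : Finset (Fin N)} (hv : Valid f g h X)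
    (hv' : Valid f g h' X) {r : ℕ} {x : Fin r → Fin N} (hx : ∀ i, x i ∈ X)
    {σ : Perm (Fin r)} (h1 : StrictMono (h ∘ x)) (h2 : StrictMono (h' ∘ x ∘ σ)) :
    σ ∈ Gam hf r := by
  intro b y hy1 hy2 k k' hk hk' k1 k2
  have hxi : Injective x := Injective.of_comp h1.injective
  obtain ⟨π, hπ⟩ := exists_perm_extend hxi hy1
  set a : Fin N → A := fun p => b (π p) with ha
  have hsa : ∀ p, IsSing a p ↔ ∃ i, x i = p := by
    intro p
    rw [ha, isSing_comp, hy2]
    constructor
    · rintro ⟨i, hi⟩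
      exact ⟨i, π.injective (by rw [hπ, hi])⟩
    · rintro ⟨i, rfl⟩
      exact ⟨i, (hπ i).symm⟩
  have hga : ∀ i, IsSing a i → i ∈ X := by
    intro i hi
    obtain ⟨j, rfl⟩ := (hsa i).mp hi
    exact hx j
  have e1 : Val f h a = Val f k b := by
    have := Val_eq hf hk b ((Tuple.sort h).trans π) ?_
    · rw [← this]; rfl
    · intro u v hu hv huv
      simp only [Equiv.trans_apply] at hu hv ⊢
      obtain ⟨i, hi⟩ := (hy2 _).mp hu
      obtain ⟨j, hj⟩ := (hy2 _).mp hv
      have hi' : Tuple.sort h u = x i := π.injective (by rw [hπ, hi])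
      have hj' : Tuple.sort h v = x j := π.injective (by rw [hπ, hj])
      rw [← hi, ← hj]
      have := sort_strict hh huv
      simp only [comp_apply, hi', hj'] at this
      exact k1 (h1.lt_iff_lt.mp this)
  have e2 : Val f h' a = Val f k' b := by
    have := Val_eq hf hk' b ((Tuple.sort h').trans π) ?_
    · rw [← this]; rfl
    · intro u v hu hv huv
      simp only [Equiv.trans_apply] at hu hv ⊢
      obtain ⟨i, hi⟩ := (hy2 _).mp hu
      obtain ⟨j, hj⟩ := (hy2 _).mp hv
      have hi' : Tuple.sort h' u = x i := π.injective (by rw [hπ, hi])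
      have hj' : Tuple.sort h' v = x j := π.injective (by rw [hπ, hj])
      rw [← hi, ← hj]
      have := sort_strict hh' huv
      simp only [comp_apply, hi', hj'] at this
      have e3 : i = σ (σ.symm i) := by simp
      have e4 : j = σ (σ.symm j) := by simp
      rw [e3, e4] at this ⊢
      exact k2 (h2.lt_iff_lt.mp this)
  rw [← e1, ← e2, ← hv a hga, ← hv' a hga]

theorem Rel_of_valid {f g : (Fin N → A) → B} (hf : DetCS f) {h h' : Fin N → ℚ}
    (hh : Injective h) (hh' : Injective h') {X : Finset (Fin N)} (hv : Valid f g h X)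
    (hv' : Valid f g h' X) (r : ℕ) : Rel h h' X (Gam hf r) :=
  fun _ hx h1 _ h2 => mem_Gam_of_valid hf hh hh' hv hv' hx h1 h2

omit [DecidableEq A] in
/-- enumeration of the singletons -/
theorem exists_enum_sing {h : Fin N → ℚ} (hh : Injective h) (a : Fin N → A) [Fintype A] :
    ∃ (r : ℕ) (y : Fin r → Fin N), r ≤ Fintype.card A ∧ StrictMono (h ∘ y) ∧
      ∀ p, IsSing a p ↔ ∃ i, y i = p := by
  classical
  set Z : Finset (Fin N) := univ.filter fun p => IsSing a p with hZ
  obtain ⟨e, he1, he2⟩ := exists_enum hh Z rfl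
  refine ⟨Z.card, e, card_sing_le a Z fun u hu => (mem_filter.mp hu).2, he1, fun p => ?_⟩
  rw [← he2, hZ, mem_filter]
  simp

/-- the group of `n`-patterns `σ` such that `1 ⊕ σ` is irrelevant -/
def shiftHom (n : ℕ) : Perm (Fin n) →* Perm (Fin (n + 1)) where
  toFun σ := Perm.decomposeFin.symm (0, σ)
  map_one' := by
    ext i
    rcases Fin.eq_zero_or_eq_succ i with rfl | ⟨i, rfl⟩ <;> simp
  map_mul' σ τ := by
    ext i
    rcases Fin.eq_zero_or_eq_succ i with rfl | ⟨i, rfl⟩ <;> simp

theorem shiftHom_zero {n : ℕ} (σ : Perm (Fin n)) : shiftHom n σ 0 = 0 := by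
  simp [shiftHom]

theorem shiftHom_succ {n : ℕ} (σ : Perm (Fin n)) (i : Fin n) :
    shiftHom n σ i.succ = (σ i).succ := by
  simp [shiftHom]

theorem top_of_rot {n : ℕ} {G : Subgroup (Perm (Fin (n + 1)))} (h1 : finRotate (n + 1) ∈ G)
    (h2 : shiftHom n (finRotate n) ∈ G) : G = ⊤ := by
  rcases n with _ | n
  · rw [eq_top_iff]
    intro σ _
    have : σ = 1 := Equiv.ext fun i => Fin.ext (by lia)
    rw [this]; exact G.one_mem
  · have hsw : swap (0 : Fin (n + 2)) (finRotate (n + 2) 0) ∈ G := by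
      have e : finRotate (n + 2) * (shiftHom (n + 1) (finRotate (n + 1)))⁻¹ =
          swap (0 : Fin (n + 2)) 1 := by
        rw [mul_inv_eq_iff_eq_mul]
        ext i
        rcases Fin.eq_zero_or_eq_succ i with rfl | ⟨i, rfl⟩
        · simp [shiftHom_zero]
        · rw [Perm.mul_apply, shiftHom_succ]
          rcases Fin.eq_castSucc_or_eq_last i with ⟨i, rfl⟩ | rfl
          · rw [finRotate_apply, finRotate_apply]
            have e1 : (i.castSucc + 1 : Fin (n + 1)) = i.succ := Fin.coeSucc_eq_succ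
            rw [e1]
            have e2 : (i.castSucc.succ + 1 : Fin (n + 2)) = i.succ.succ := by
              rw [Fin.succ_castSucc]; exact Fin.coeSucc_eq_succ
            rw [e2, swap_apply_of_ne_of_ne]
            · exact (Fin.succ_ne_zero _)
            · intro he
              have := congrArg Fin.val he
              simp at this
          · rw [finRotate_last, Fin.succ_last, finRotate_last, Fin.succ_zero_eq_one,
              swap_apply_right]
      have e2 : finRotate (n + 2) 0 = (1 : Fin (n + 2)) := by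
        rw [finRotate_apply]; simp
      rw [e2, ← e]
      exact G.mul_mem h1 (G.inv_mem h2)
    have := Perm.closure_cycle_adjacent_swap (σ := finRotate (n + 2)) isCycle_finRotate
      support_finRotate 0
    rw [eq_top_iff, ← this, Subgroup.closure_le]
    intro σ hσ
    rcases hσ with rfl | hσ
    · exact h1
    · rw [Set.mem_singleton_iff] at hσ
      rw [hσ]; exact hsw

end Pool.Agent.D0H14.CS
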