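import Pool.Agent.D0H14.CS.Basic

/-!
# Gluing of the orders
-/

open Function Finset Equiv Pool.Agent.R795.Min

namespace Pool.Agent.D0H14.CS

variable {ι : Type*} [DecidableEq ι]

omit [DecidableEq ι] in
theorem exists_shrink {k : ι → ℚ} (hk : Injective k) {S S' : Finset ι} (hc : S.card ≤ S'.card) :
    ∃ θ : ι → ι, (∀ x ∈ S, θ x ∈ S') ∧ ∀ x ∈ S, ∀ y ∈ S, k x < k y → k (θ x) < k (θ y) := by
  classical
  obtain ⟨e, he1, he2⟩ := exists_enum hk S rfl
  obtain ⟨e', he1', he2'⟩ := exists_enum hk S' rfl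
  have hinj : Injective e := Injective.of_comp he1.injective
  refine ⟨fun x => if hx : ∃ i, e i = x then e' (Fin.castLE hc hx.choose) else x, ?_, ?_⟩
  · intro x hx
    have hx' := (he2 x).mp hx
    simp only [dif_pos hx']
    exact (he2' _).mpr ⟨_, rfl⟩
  · intro x hx y hy hxy
    obtain ⟨i, rfl⟩ := (he2 x).mp hx
    obtain ⟨j, rfl⟩ := (he2 y).mp hy
    have hi : ∃ i', e i' = e i := ⟨i, rfl⟩
    have hj : ∃ j', e j' = e j := ⟨j, rfl⟩
    simp only [dif_pos hi, dif_pos hj]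
    rw [hinj hi.choose_spec, hinj hj.choose_spec]
    exact he1' (Fin.castLE_lt_castLE_iff hc |>.mpr (he1.lt_iff_lt.mp hxy))

omit [DecidableEq ι] in
/-- injective labels: strict comparisons in the other direction -/
theorem flip_iff {k k' : ι → ℚ} (hk : Injective k) (hk' : Injective k') {x y : ι}
    (h : k x < k y ↔ k' x < k' y) : k y < k x ↔ k' y < k' x := by
  rcases eq_or_ne x y with rfl | hne
  · simp
  · have h1 : k x ≠ k y := hk.ne hne
    have h2 : k' x ≠ k' y := hk'.ne hne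
    constructor
    · intro h3
      by_contra h4
      exact absurd (h.mpr (lt_of_le_of_ne (not_lt.mp h4) h2)) (not_lt.mpr h3.le)
    · intro h3
      by_contra h4
      exact absurd (h.mp (lt_of_le_of_ne (not_lt.mp h4) h1)) (not_lt.mpr h3.le)

theorem exists_between_avoid {S1 S2 F : Finset ℚ} (h1 : S1.Nonempty) (h2 : S2.Nonempty)
    (hlt : ∀ a ∈ S1, ∀ b ∈ S2, a < b) :
    ∃ v : ℚ, (∀ a ∈ S1, a < v) ∧ (∀ b ∈ S2, v < b) ∧ v ∉ F := by
  have h := hlt _ (S1.max'_mem h1) _ (S2.min'_mem h2)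
  obtain ⟨v, hv, hvF⟩ := (Set.Ioo_infinite h).exists_notMem_finset F
  exact ⟨v, fun a ha => (S1.le_max' a ha).trans_lt hv.1, fun b hb => hv.2.trans_le
    (S2.min'_le b hb), hvF⟩

omit [DecidableEq ι] in
/-- the comparison of two orders near a cut, with a sign -/
theorem mid_signed {h h' : ι → ℚ} {X : Finset ι} {n : ℕ} {H : Subgroup (Perm (Fin (n + 1)))}
    (hR : Rel h h' X H) (hh : Injective h) (hh' : Injective h') (hc : finRotate (n + 1) ∉ H)
    {T : ℕ} {z : ι}
    (c1 : (2 * Lsz T n) * (2 * Lsz T n) < (X.filter fun y => h y < h z).card)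
    (c2 : (2 * Lsz T n) * (2 * Lsz T n) < (X.filter fun y => h z < h y).card) :
    ∃ (k : ι → ℚ) (u1 u2 : ℚ), (k = h ∨ k = fun x => - h x) ∧ Injective k ∧
      u1 < k z ∧ k z < u2 ∧
      (∀ y ∈ X, u1 < k y → k y < u2 → ∀ x ∈ X, (k x < k y ↔ h' x < h' y)) ∧
      T ≤ (X.filter fun y => u1 < k y ∧ k y < k z).card ∧
      T ≤ (X.filter fun y => k z < k y ∧ k y < u2).card := by
  obtain ⟨u1, u2, a1, a2, a3 | a3, a4, a5⟩ := mid hR hh hh' hc c1 c2
  · exact ⟨h, u1, u2, Or.inl rfl, hh, a1, a2, a3, a4, a5⟩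
  · refine ⟨fun x => - h x, - u2, - u1, Or.inr rfl, fun a b hab => hh (neg_injective hab),
      neg_lt_neg a2, neg_lt_neg a1, ?_, ?_, ?_⟩
    · intro y hy h1 h2 x hx
      have h3 := a3 y hy (neg_lt_neg_iff.mp h2) (neg_lt_neg_iff.mp h1) x hx
      rw [neg_lt_neg_iff]
      have h4 : h x < h y ↔ (fun x => - h' x) x < (fun x => - h' x) y := by
        simp only [neg_lt_neg_iff]; exact h3
      have h5 := flip_iff hh (fun a b hab => hh' (neg_injective hab)) h4
      simpa using h5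
    · refine a5.trans (card_le_card fun y hy => ?_)
      rw [mem_filter] at hy ⊢
      exact ⟨hy.1, neg_lt_neg hy.2.2, neg_lt_neg hy.2.1⟩
    · refine a4.trans (card_le_card fun y hy => ?_)
      rw [mem_filter] at hy ⊢
      exact ⟨hy.1, neg_lt_neg hy.2.2, neg_lt_neg hy.2.1⟩

omit [DecidableEq ι] in
theorem find_mid {h : ι → ℚ} (hh : Injective h) {S : Finset ι} {c : ℕ}
    (hS : 2 * c + 1 ≤ S.card) :
    ∃ z ∈ S, c ≤ (S.filter fun x => h x < h z).card ∧ c ≤ (S.filter fun x => h z < h x).card := by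
  classical
  obtain ⟨e, he1, he2⟩ := exists_enum hh S rfl
  have hinj : Injective e := Injective.of_comp he1.injective
  refine ⟨e ⟨c, by lia⟩, (he2 _).mpr ⟨_, rfl⟩, ?_, ?_⟩
  · have : c = ((univ : Finset (Fin c)).image fun i => e ⟨i.val, by lia⟩).card := by
      rw [card_image_of_injective, card_univ, Fintype.card_fin]
      intro i j hij
      have := hinj hij
      exact Fin.ext (by simpa using this)
    conv_lhs => rw [this]
    apply card_le_card
    intro y hy
    obtain ⟨i, _, rfl⟩ := mem_image.mp hy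
    rw [mem_filter]
    refine ⟨(he2 _).mpr ⟨_, rfl⟩, he1 (Fin.lt_def.mpr ?_)⟩
    simp
  · have : c = ((univ : Finset (Fin c)).image fun i => e ⟨c + 1 + i.val, by lia⟩).card := by
      rw [card_image_of_injective, card_univ, Fintype.card_fin]
      intro i j hij
      have := hinj hij
      exact Fin.ext (by simpa using this)
    conv_lhs => rw [this]
    apply card_le_card
    intro y hy
    obtain ⟨i, _, rfl⟩ := mem_image.mp hy
    rw [mem_filter]
    refine ⟨(he2 _).mpr ⟨_, rfl⟩, he1 (Fin.lt_def.mpr ?_)⟩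
    simp only
    lia

theorem card_filter_erase {S : Finset ι} {t : ι} {P : ι → Prop} [DecidablePred P] {c : ℕ}
    (h : c + 1 ≤ (S.filter P).card) : c ≤ ((S.erase t).filter P).card := by
  have : (S.erase t).filter P = (S.filter P).erase t := by
    ext x; simp only [mem_filter, mem_erase]; tauto
  rw [this]
  have := pred_card_le_card_erase (s := S.filter P) (a := t)
  lia

variable {A B : Type} {N : ℕ} [DecidableEq A]

set_option maxHeartbeats 1000000 in
/-- gluing, assuming that the relevant patterns are in a group without the full cycle -/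
theorem glue_core [Fintype A] {f g : (Fin N → A) → B} (hf : DetCS f) {Y D : Finset (Fin N)}
    {n : ℕ} {H : Subgroup (Perm (Fin (n + 1)))} (hc : finRotate (n + 1) ∉ H)
    (h : Fin N → Fin N → ℚ) (hinj : ∀ t, Injective (h t))
    (hval : ∀ t ∈ Y \ D, Valid f g (h t) (Y.erase t))
    (hnorm : ∀ t ∈ Y \ D, ∀ d ∈ D, ∀ y, y ≠ d → h t d < h t y)
    (hrel : ∀ s ∈ Y \ D, ∀ t ∈ Y \ D, s ≠ t →
      Rel (h s) (h t) (((Y \ D).erase s).erase t) H)
    (hbig : 2 * ((2 * Lsz (Fintype.card A + 2) n) * (2 * Lsz (Fintype.card A + 2) n)) + 20 +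
      Fintype.card A ≤ (Y \ D).card) :
    ∃ h' : Fin N → ℚ, Injective h' ∧ Valid f g h' Y := by
  classical
  set Y' := Y \ D with hY'
  set T := Fintype.card A + 2 with hT
  set w := (2 * Lsz T n) * (2 * Lsz T n) with hw
  have hYY : ∀ x, x ∈ Y' ↔ x ∈ Y ∧ x ∉ D := fun x => mem_sdiff
  -- choice of `t0` and `z`
  obtain ⟨t0, ht0⟩ : Y'.Nonempty := by rw [← card_pos]; lia
  obtain ⟨z, hz0, hzl, hzr⟩ := find_mid (hinj t0) (S := Y'.erase t0) (c := w + 3)
    (by rw [card_erase_of_mem ht0]; lia)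
  have hzt0 : z ≠ t0 := ne_of_mem_erase hz0
  have hz : z ∈ Y' := mem_of_mem_erase hz0
  -- `z` is deep in all orders
  have deep : ∀ t ∈ Y', t ≠ z →
      w + 2 ≤ ((Y'.erase t).filter fun x => h t x < h t z).card ∧
      w + 2 ≤ ((Y'.erase t).filter fun x => h t z < h t x).card := by
    intro t ht htz
    rcases eq_or_ne t t0 with rfl | htt
    · exact ⟨by lia, by lia⟩
    · have c1 : w + 2 ≤ (((Y'.erase t0).erase t).filter fun x => h t0 x < h t0 z).card :=
        card_filter_erase hzl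
      have c2 : w + 2 ≤ (((Y'.erase t0).erase t).filter fun x => h t0 z < h t0 x).card :=
        card_filter_erase hzr
      have hzX : z ∈ (Y'.erase t0).erase t := mem_erase.mpr ⟨htz.symm, hz0⟩
      obtain ⟨u1, u2, a1, a2, a3 | a3, -, -⟩ := mid (T := T) (hrel t0 ht0 t ht htt.symm) (hinj t0)
        (hinj t) hc (v := h t0 z) (by lia) (by lia)
      · have r := a3 z hzX a1 a2
        constructor
        · refine c1.trans (card_le_card fun x hx => ?_)
          rw [mem_filter] at hx ⊢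
          refine ⟨?_, (r x hx.1).mp hx.2⟩
          have := hx.1
          simp only [mem_erase] at this ⊢
          exact ⟨this.1, this.2.2⟩
        · refine c2.trans (card_le_card fun x hx => ?_)
          rw [mem_filter] at hx ⊢
          refine ⟨?_, (flip_iff (hinj t0) (hinj t) (r x hx.1)).mp hx.2⟩
          have := hx.1
          simp only [mem_erase] at this ⊢
          exact ⟨this.1, this.2.2⟩
      · have r := a3 z hzX a1 a2
        constructor
        · refine c2.trans (card_le_card fun x hx => ?_)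
          rw [mem_filter] at hx ⊢
          have hxz : x ≠ z := fun he => by rw [he] at hx; exact lt_irrefl _ hx.2
          refine ⟨?_, ?_⟩
          · have := hx.1
            simp only [mem_erase] at this ⊢
            exact ⟨this.1, this.2.2⟩
          · by_contra hcon
            have := (r x hx.1).mpr (lt_of_le_of_ne (not_lt.mp hcon) ((hinj t).ne hxz.symm))
            exact absurd this (not_lt.mpr hx.2.le)
        · refine c1.trans (card_le_card fun x hx => ?_)
          rw [mem_filter] at hx ⊢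
          refine ⟨?_, (r x hx.1).mp hx.2⟩
          have := hx.1
          simp only [mem_erase] at this ⊢
          exact ⟨this.1, this.2.2⟩
  -- comparison with the order `h z`
  have data : ∀ t, t ∈ Y' → t ≠ z → ∃ (k : Fin N → ℚ) (u1 u2 : ℚ),
      (k = h t ∨ k = fun x => - h t x) ∧ Injective k ∧ u1 < k z ∧ k z < u2 ∧
      (∀ y ∈ (Y'.erase t).erase z, u1 < k y → k y < u2 →
        ∀ x ∈ (Y'.erase t).erase z, (k x < k y ↔ h z x < h z y)) ∧
      T ≤ (((Y'.erase t).erase z).filter fun y => u1 < k y ∧ k y < k z).card ∧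
      T ≤ (((Y'.erase t).erase z).filter fun y => k z < k y ∧ k y < u2).card := by
    intro t ht htz
    obtain ⟨d1, d2⟩ := deep t ht htz
    refine mid_signed (hrel t ht z hz htz) (hinj t) (hinj z) hc (T := T) ?_ ?_
    · have := card_filter_erase (S := Y'.erase t) (t := z) (P := fun x => h t x < h t z)
        (c := w + 1) d1
      lia
    · have := card_filter_erase (S := Y'.erase t) (t := z) (P := fun x => h t z < h t x)
        (c := w + 1) d2
      lia
  choose! k u1 u2 hk hkinj hu1 hu2 hrig hT1 hT2 using data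
  -- the cut defined by `t` is a cut for `h z`
  have low : ∀ t ∈ Y', t ≠ z → ∀ x ∈ (Y'.erase t).erase z, ∀ x' ∈ (Y'.erase t).erase z,
      k t x < k t z → k t z < k t x' → h z x < h z x' := by
    intro t ht htz x hx x' hx' h1 h2
    obtain ⟨c, hcm⟩ : (((Y'.erase t).erase z).filter fun y =>
        u1 t < k t y ∧ k t y < k t z).Nonempty := by
      rw [← card_pos]; have := hT1 t ht htz; lia
    rw [mem_filter] at hcm
    obtain ⟨hcX, hc1, hc2⟩ := hcm
    have rc := hrig t ht htz c hcX hc1 (hc2.trans (hu2 t ht htz))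
    have h3 : h z c < h z x' :=
      (flip_iff (hkinj t ht htz) (hinj z) (rc x' hx')).mp (hc2.trans h2)
    rcases lt_or_ge (k t c) (k t x) with h4 | h4
    · have rx := hrig t ht htz x hx (hc1.trans h4) (h1.trans (hu2 t ht htz))
      exact (flip_iff (hkinj t ht htz) (hinj z) (rx x' hx')).mp (h1.trans h2)
    · rcases h4.eq_or_lt with h5 | h5
      · rw [hkinj t ht htz h5]; exact h3
      · exact ((rc x hx).mp h5).trans h3
  have two : ∀ t ∈ Y', t ≠ z → ∀ s,
      (∃ x ∈ ((Y'.erase t).erase z).erase s, k t x < k t z) ∧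
      (∃ x ∈ ((Y'.erase t).erase z).erase s, k t z < k t x) := by
    intro t ht htz s
    constructor
    · have h1 := hT1 t ht htz
      have h2 := card_filter_erase (S := (Y'.erase t).erase z) (t := s)
        (P := fun y => u1 t < k t y ∧ k t y < k t z) (c := 1) (by lia)
      obtain ⟨x, hx⟩ := card_pos.mp (show 0 < _ by exact Nat.lt_of_lt_of_le one_pos h2)
      rw [mem_filter] at hx
      exact ⟨x, hx.1, hx.2.2⟩
    · have h1 := hT2 t ht htz
      have h2 := card_filter_erase (S := (Y'.erase t).erase z) (t := s)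
        (P := fun y => k t z < k t y ∧ k t y < u2 t) (c := 1) (by lia)
      obtain ⟨x, hx⟩ := card_pos.mp (show 0 < _ by exact Nat.lt_of_lt_of_le one_pos h2)
      rw [mem_filter] at hx
      exact ⟨x, hx.1, hx.2.1⟩
  -- the cuts agree
  have agree : ∀ s ∈ Y', s ≠ z → ∀ t ∈ Y', t ≠ z → ∀ x ∈ Y', x ≠ z → x ≠ s → x ≠ t →
      (k s x < k s z ↔ k t x < k t z) := by
    intro s hs hsz t ht htz
    rcases eq_or_ne s t with rfl | hst
    · intro x _ _ _ _; rfl
    have hzX : z ∈ (Y'.erase s).erase t :=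
      mem_erase.mpr ⟨htz.symm, mem_erase.mpr ⟨hsz.symm, hz⟩⟩
    obtain ⟨d1, d2⟩ := deep s hs hsz
    have d1' := card_filter_erase (S := Y'.erase s) (t := t) (P := fun x => h s x < h s z)
        (c := w + 1) d1
    have d2' := card_filter_erase (S := Y'.erase s) (t := t) (P := fun x => h s z < h s x)
        (c := w + 1) d2
    obtain ⟨v1, v2, a1, a2, a3, -, -⟩ := mid (T := T) (hrel s hs t ht hst) (hinj s)
        (hinj t) hc (v := h s z) (by lia) (by lia)
    -- either the same or the opposite sides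
    have dich : (∀ x ∈ Y', x ≠ z → x ≠ s → x ≠ t → (k s x < k s z ↔ k t x < k t z)) ∨
        (∀ x ∈ Y', x ≠ z → x ≠ s → x ≠ t → (k s x < k s z ↔ k t z < k t x)) := by
      have a4 : (∀ x ∈ Y', x ≠ z → x ≠ s → x ≠ t → (h s x < h s z ↔ h t x < h t z)) ∨
          (∀ x ∈ Y', x ≠ z → x ≠ s → x ≠ t → (h s x < h s z ↔ h t z < h t x)) := by
        rcases a3 with a3 | a3
        · left
          intro x hx _ hxs hxt
          exact a3 z hzX a1 a2 x (mem_erase.mpr ⟨hxt, mem_erase.mpr ⟨hxs, hx⟩⟩)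
        · right
          intro x hx _ hxs hxt
          exact a3 z hzX a1 a2 x (mem_erase.mpr ⟨hxt, mem_erase.mpr ⟨hxs, hx⟩⟩)
      have fl : ∀ (q : Fin N → ℚ), Injective q → ∀ x, x ≠ z → (q z < q x ↔ ¬ q x < q z) := by
        intro q hq x hxz
        constructor
        · intro h1; exact not_lt.mpr h1.le
        · intro h1; exact lt_of_le_of_ne (not_lt.mp h1) (hq.ne hxz.symm)
      rcases hk s hs hsz with es | es <;> rcases hk t ht htz with et | et <;>
        rcases a4 with a4 | a4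
      · left; intro x h1 h2 h3 h4; rw [es, et]; exact a4 x h1 h2 h3 h4
      · right; intro x h1 h2 h3 h4; rw [es, et]; exact a4 x h1 h2 h3 h4
      · right; intro x h1 h2 h3 h4; rw [es, et]; simp only [neg_lt_neg_iff]
        exact a4 x h1 h2 h3 h4
      · left; intro x h1 h2 h3 h4; rw [es, et]; simp only [neg_lt_neg_iff]
        exact a4 x h1 h2 h3 h4
      · right; intro x h1 h2 h3 h4; rw [es, et]; simp only [neg_lt_neg_iff]
        rw [fl _ (hinj s) x h2, fl _ (hinj t) x h2, a4 x h1 h2 h3 h4]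
      · left; intro x h1 h2 h3 h4; rw [es, et]; simp only [neg_lt_neg_iff]
        rw [fl _ (hinj s) x h2, a4 x h1 h2 h3 h4, fl _ (hinj t) x h2, not_not]
      · left; intro x h1 h2 h3 h4; rw [es, et]; simp only [neg_lt_neg_iff]
        rw [fl _ (hinj s) x h2, fl _ (hinj t) x h2, a4 x h1 h2 h3 h4]
      · right; intro x h1 h2 h3 h4; rw [es, et]; simp only [neg_lt_neg_iff]
        rw [fl _ (hinj s) x h2, a4 x h1 h2 h3 h4, fl _ (hinj t) x h2, not_not]
    rcases dich with hd | hd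
    · exact hd
    · exfalso
      obtain ⟨⟨x1, hx1, hx1'⟩, ⟨x2, hx2, hx2'⟩⟩ := two s hs hsz t
      simp only [mem_erase] at hx1 hx2
      obtain ⟨e1, e2, e3, e4⟩ := hx1
      obtain ⟨g1, g2, g3, g4⟩ := hx2
      have m1 : h z x1 < h z x2 := by
        refine low s hs hsz x1 ?_ x2 ?_ hx1' hx2' <;> simp only [mem_erase]
        · exact ⟨e2, e3, e4⟩
        · exact ⟨g2, g3, g4⟩
      have m2 : k t z < k t x1 := (hd x1 e4 e2 e3 e1).mp hx1'
      have m3 : k t x2 < k t z := by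
        have : ¬ k t z < k t x2 := fun hcon =>
          absurd ((hd x2 g4 g2 g3 g1).mpr hcon) (not_lt.mpr hx2'.le)
        exact lt_of_le_of_ne (not_lt.mp this) ((hkinj t ht htz).ne g2)
      have m4 : h z x2 < h z x1 := by
        refine low t ht htz x2 ?_ x1 ?_ m3 m2 <;> simp only [mem_erase]
        · exact ⟨g2, g1, g4⟩
        · exact ⟨e2, e1, e4⟩
      exact lt_asymm m1 m4
  -- the common cut
  have avoid : ∀ F : Finset (Fin N), F.card ≤ Fintype.card A + 3 → ∃ t ∈ Y', t ∉ F := by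
    intro F hF
    by_contra hcon
    push Not at hcon
    have := card_le_card (show Y' ⊆ F from hcon)
    lia
  set Bq : Fin N → Prop := fun x => ∃ t ∈ Y', t ≠ z ∧ t ≠ x ∧ k t x < k t z with hBq
  have Bq_iff : ∀ x ∈ Y', x ≠ z → ∀ t ∈ Y', t ≠ z → t ≠ x → (Bq x ↔ k t x < k t z) := by
    intro x hx hxz t ht htz htx
    constructor
    · rintro ⟨s, hs, hsz, hsx, hlt⟩
      exact (agree s hs hsz t ht htz x hx hxz hsx.symm htx.symm).mp hlt
    · intro hlt
      exact ⟨t, ht, htz, htx, hlt⟩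
  have Bq_low : ∀ x ∈ Y', x ≠ z → ∀ x' ∈ Y', x' ≠ z → Bq x → ¬ Bq x' → h z x < h z x' := by
    intro x hx hxz x' hx' hxz' h1 h2
    obtain ⟨t, ht, htF⟩ := avoid {x, x', z} (by
      have : ({x, x', z} : Finset (Fin N)).card ≤ 3 := card_le_three
      lia)
    simp only [mem_insert, mem_singleton, not_or] at htF
    obtain ⟨t1, t2, t3⟩ := htF
    have h1' := (Bq_iff x hx hxz t ht t3 t1).mp h1
    have h2' : ¬ k t x' < k t z := fun hcon => h2 ((Bq_iff x' hx' hxz' t ht t3 t2).mpr hcon)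
    have h2'' : k t z < k t x' :=
      lt_of_le_of_ne (not_lt.mp h2') ((hkinj t ht t3).ne hxz'.symm)
    refine low t ht t3 x ?_ x' ?_ h1' h2''
    · exact mem_erase.mpr ⟨hxz, mem_erase.mpr ⟨fun he => t1 he.symm, hx⟩⟩
    · exact mem_erase.mpr ⟨hxz', mem_erase.mpr ⟨fun he => t2 he.symm, hx'⟩⟩
  have Bq_ex : (∃ x ∈ Y', x ≠ z ∧ Bq x) ∧ (∃ x ∈ Y', x ≠ z ∧ ¬ Bq x) := by
    obtain ⟨⟨x1, hx1, hx1'⟩, ⟨x2, hx2, hx2'⟩⟩ := two t0 ht0 hzt0.symm t0
    simp only [mem_erase] at hx1 hx2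
    obtain ⟨e1, e2, e3, e4⟩ := hx1
    obtain ⟨g1, g2, g3, g4⟩ := hx2
    refine ⟨⟨x1, e4, e2, (Bq_iff x1 e4 e2 t0 ht0 hzt0.symm e1.symm).mpr hx1'⟩,
      ⟨x2, g4, g2, fun hcon => ?_⟩⟩
    exact lt_asymm ((Bq_iff x2 g4 g2 t0 ht0 hzt0.symm g1.symm).mp hcon) hx2'
  -- the new label of `z`
  obtain ⟨v, hv1, hv2, hv3⟩ := exists_between_avoid
    (S1 := ((Y'.filter fun x => x ≠ z ∧ Bq x) ∪ D).image (h z))
    (S2 := (Y'.filter fun x => x ≠ z ∧ ¬ Bq x).image (h z))
    (F := univ.image (h z))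
    (by
      obtain ⟨x, hx, hxz, hb⟩ := Bq_ex.1
      exact ⟨h z x, mem_image_of_mem _ (mem_union_left _ (mem_filter.mpr ⟨hx, hxz, hb⟩))⟩)
    (by
      obtain ⟨x, hx, hxz, hb⟩ := Bq_ex.2
      exact ⟨h z x, mem_image_of_mem _ (mem_filter.mpr ⟨hx, hxz, hb⟩)⟩)
    (by
      intro a ha b hb
      obtain ⟨x, hx, rfl⟩ := mem_image.mp ha
      obtain ⟨x', hx', rfl⟩ := mem_image.mp hb
      rw [mem_filter] at hx'
      rcases mem_union.mp hx with hx | hx
      · rw [mem_filter] at hx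
        exact Bq_low x hx.1 hx.2.1 x' hx'.1 hx'.2.1 hx.2.2 hx'.2.2
      · refine hnorm z hz x hx x' fun he => ?_
        rw [he] at hx'
        exact ((hYY x).mp hx'.1).2 hx)
  have hvB : ∀ x ∈ Y', x ≠ z → Bq x → h z x < v := fun x hx hxz hb =>
    hv1 _ (mem_image_of_mem _ (mem_union_left _ (mem_filter.mpr ⟨hx, hxz, hb⟩)))
  have hvD : ∀ x ∈ D, h z x < v := fun x hx =>
    hv1 _ (mem_image_of_mem _ (mem_union_right _ hx))
  have hvB' : ∀ x ∈ Y', x ≠ z → ¬ Bq x → v < h z x := fun x hx hxz hb =>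
    hv2 _ (mem_image_of_mem _ (mem_filter.mpr ⟨hx, hxz, hb⟩))
  have hvne : ∀ x, h z x ≠ v := fun x he =>
    hv3 (he ▸ mem_image_of_mem (h z) (mem_univ x))
  set hs : Fin N → ℚ := update (h z) z v with hhs
  have hsz : hs z = v := update_self _ _ _
  have hsne : ∀ x, x ≠ z → hs x = h z x := fun x hx => update_of_ne hx _ _
  have hsinj : Injective hs := by
    intro x y hxy
    rcases eq_or_ne x z with rfl | hx <;> rcases eq_or_ne y x with rfl | hy
    · rfl
    · rw [hsz, hsne y hy] at hxy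
      exact absurd hxy.symm (hvne y)
    · rfl
    · rcases eq_or_ne y z with rfl | hyz
      · rw [hsz, hsne x hx] at hxy
        exact absurd hxy (hvne x)
      · rw [hsne x hx, hsne y hyz] at hxy
        exact (hinj z) hxy
  have hsD : ∀ d ∈ D, ∀ y, y ≠ d → hs d < hs y := by
    intro d hd y hy
    have hdz : d ≠ z := fun he => ((hYY z).mp hz).2 (he ▸ hd)
    rw [hsne d hdz]
    rcases eq_or_ne y z with rfl | hyz
    · rw [hsz]; exact hvD d hd
    · rw [hsne y hyz]; exact hnorm z hz d hd y hy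
  refine ⟨hs, hsinj, ?_⟩
  intro a ha
  by_cases hza : IsSing a z
  swap
  · rw [hval z hz a fun i hi => mem_erase.mpr ⟨fun he => hza (he ▸ hi), ha i hi⟩]
    apply Val_congr hf (hinj z) hsinj
    intro p q hp hq hpq
    rw [hsne p fun he => hza (he ▸ hp), hsne q fun he => hza (he ▸ hq)]
    exact hpq
  set Z : Finset (Fin N) := univ.filter fun p => IsSing a p with hZdef
  have hZm : ∀ p, p ∈ Z ↔ IsSing a p := fun p => by rw [hZdef, mem_filter]; simp
  have hZc : Z.card ≤ Fintype.card A := card_sing_le a Z fun u hu => (hZm u).mp hu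
  obtain ⟨t, ht, htZ⟩ := avoid Z (by lia)
  have hta : ¬ IsSing a t := fun hcon => htZ ((hZm t).mpr hcon)
  have htz : t ≠ z := fun he => hta (he ▸ hza)
  rw [hval t ht a fun i hi => mem_erase.mpr ⟨fun he => hta (he ▸ hi), ha i hi⟩]
  obtain ⟨y, hy1, hy2⟩ := exists_enum (hinj t) Z rfl
  have hyinj : Injective y := Injective.of_comp hy1.injective
  obtain ⟨σ, hσ⟩ := exists_sort (hsinj.comp hyinj)
  have hy3 : ∀ p, IsSing a p ↔ ∃ i, y i = p := fun p => by rw [← hy2, hZm]
  refine Val_of_mem_Gam hf (σ := σ) ?_ a hy3 (hinj t) hsinj hy1 hσ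
  -- the window
  set C : Finset (Fin N) := ((Y'.erase t).erase z).filter fun y => u1 t < k t y ∧ k t y < u2 t
    with hC
  have hCm : ∀ x, x ∈ C ↔ x ∈ Y' ∧ x ≠ t ∧ x ≠ z ∧ u1 t < k t x ∧ k t x < u2 t := by
    intro x
    rw [hC, mem_filter, mem_erase, mem_erase]; tauto
  have hCc : Fintype.card A ≤ C.card := by
    have h1 := hT1 t ht htz
    have h2 : (((Y'.erase t).erase z).filter fun y => u1 t < k t y ∧ k t y < k t z).card
        ≤ C.card := by
      apply card_le_card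
      intro x hx
      rw [mem_filter] at hx
      rw [hC, mem_filter]
      exact ⟨hx.1, hx.2.1, hx.2.2.trans (hu2 t ht htz)⟩
    lia
  set CS : Finset (Fin N) := Z.filter fun p => p = z ∨ p ∈ C with hCS
  have hkt := hkinj t ht htz
  obtain ⟨θ, hθ1, hθ2⟩ := exists_shrink hkt (S := CS) (S' := C)
    ((card_le_card (filter_subset _ _)).trans (hZc.trans hCc))
  set θ' : Fin N → Fin N := fun x => if x ∈ CS then θ x else x with hθ'
  have θ'1 : ∀ x, x ∈ CS → θ' x = θ x := fun x hx => if_pos hx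
  have θ'2 : ∀ x, x ∉ CS → θ' x = x := fun x hx => if_neg hx
  have CSu : ∀ x ∈ CS, u1 t < k t x ∧ k t x < u2 t := by
    intro x hx
    rw [hCS, mem_filter] at hx
    rcases hx.2 with rfl | hx
    · exact ⟨hu1 t ht htz, hu2 t ht htz⟩
    · exact ((hCm x).mp hx).2.2.2
  have CSY : ∀ x ∈ CS, x ∈ Y' := by
    intro x hx
    rw [hCS, mem_filter] at hx
    rcases hx.2 with rfl | hx
    · exact hz
    · exact ((hCm x).mp hx).1
  have Zt : ∀ x ∈ Z, x ≠ t := fun x hx he => htZ (he ▸ hx)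
  have ZY : ∀ x ∈ Z, x ∉ D → x ∈ Y' := fun x hx hxD =>
    (hYY x).mpr ⟨ha x ((hZm x).mp hx), hxD⟩
  have nCS : ∀ x ∈ Z, x ∉ D → x ∉ CS → x ∈ (Y'.erase t).erase z ∧
      (k t x ≤ u1 t ∨ u2 t ≤ k t x) := by
    intro x hx hxD hxC
    have h1 : x ≠ z := fun he => hxC (by rw [hCS, mem_filter]; exact ⟨hx, Or.inl he⟩)
    have h2 : x ∉ C := fun he => hxC (by rw [hCS, mem_filter]; exact ⟨hx, Or.inr he⟩)
    refine ⟨mem_erase.mpr ⟨h1, mem_erase.mpr ⟨Zt x hx, ZY x hx hxD⟩⟩, ?_⟩
    by_contra hcon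
    push Not at hcon
    exact h2 ((hCm x).mpr ⟨ZY x hx hxD, Zt x hx, h1, hcon⟩)
  -- rigidity of the window in the new order
  have rigz : ∀ x ∈ Y', x ≠ t → x ≠ z → (k t x < k t z ↔ hs x < hs z) := by
    intro x hx hxt hxz
    rw [hsz, hsne x hxz, ← Bq_iff x hx hxz t ht htz (fun he => hxt he.symm)]
    constructor
    · exact hvB x hx hxz
    · intro hlt
      by_contra hcon
      exact lt_asymm hlt (hvB' x hx hxz hcon)
  have rigs : ∀ y ∈ CS, ∀ x ∈ Y', x ≠ t → (k t x < k t y ↔ hs x < hs y) := by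
    intro y hy x hx hxt
    have hyY := CSY y hy
    have hyu := CSu y hy
    rcases eq_or_ne y z with rfl | hyz
    · rcases eq_or_ne x y with rfl | hxy
      · simp
      · exact rigz x hx hxt hxy
    · have hyt : y ≠ t := Zt y (mem_filter.mp hy).1
      rcases eq_or_ne x z with rfl | hxz
      · exact flip_iff hkt hsinj (rigz y hyY hyt hyz)
      · rw [hsne x hxz, hsne y hyz]
        exact hrig t ht htz y (mem_erase.mpr ⟨hyz, mem_erase.mpr ⟨hyt, hyY⟩⟩) hyu.1 hyu.2 x
          (mem_erase.mpr ⟨hxz, mem_erase.mpr ⟨hxt, hx⟩⟩)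
  have rigC : ∀ y ∈ C, ∀ x ∈ (Y'.erase t).erase z, (k t x < k t y ↔ h z x < h z y) := by
    intro y hy x hx
    obtain ⟨y1, y2, y3, y4, y5⟩ := (hCm y).mp hy
    exact hrig t ht htz y (mem_erase.mpr ⟨y3, mem_erase.mpr ⟨y2, y1⟩⟩) y4 y5 x hx
  have CX : ∀ y ∈ C, y ∈ (Y'.erase t).erase z := fun y hy => (mem_filter.mp hy).1
  -- `θ'` preserves the order `k t`
  have K1 : ∀ p ∈ Z, ∀ q ∈ Z, p ∉ D → q ∉ D → k t p < k t q → k t (θ' p) < k t (θ' q) := by
    intro p hp q hq hpD hqD hpq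
    by_cases hpC : p ∈ CS <;> by_cases hqC : q ∈ CS
    · rw [θ'1 p hpC, θ'1 q hqC]; exact hθ2 p hpC q hqC hpq
    · rw [θ'1 p hpC, θ'2 q hqC]
      obtain ⟨_, _, _, _, c5⟩ := (hCm _).mp (hθ1 p hpC)
      rcases (nCS q hq hqD hqC).2 with h1 | h1
      · exact absurd ((CSu p hpC).1.trans hpq) (not_lt.mpr h1)
      · exact c5.trans_le h1
    · rw [θ'2 p hpC, θ'1 q hqC]
      obtain ⟨_, _, _, c4, _⟩ := (hCm _).mp (hθ1 q hqC)
      rcases (nCS p hp hpD hpC).2 with h1 | h1
      · exact h1.trans_lt c4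
      · exact absurd (hpq.trans (CSu q hqC).2) (not_lt.mpr h1)
    · rw [θ'2 p hpC, θ'2 q hqC]; exact hpq
  have K2 : ∀ p ∈ Z, ∀ q ∈ Z, p ∉ D → q ∉ D → hs p < hs q → h z (θ' p) < h z (θ' q) := by
    intro p hp q hq hpD hqD hpq
    by_cases hpC : p ∈ CS <;> by_cases hqC : q ∈ CS
    · have h1 := (rigs q hqC p (ZY p hp hpD) (Zt p hp)).mpr hpq
      have h2 := K1 p hp q hq hpD hqD h1
      rw [θ'1 p hpC, θ'1 q hqC] at h2 ⊢
      exact (rigC _ (hθ1 q hqC) _ (CX _ (hθ1 p hpC))).mp h2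
    · have h1 : k t p < k t q := (flip_iff hkt hsinj
        (rigs p hpC q (ZY q hq hqD) (Zt q hq))).mpr hpq
      have h2 := K1 p hp q hq hpD hqD h1
      rw [θ'1 p hpC, θ'2 q hqC] at h2 ⊢
      exact (flip_iff hkt (hinj z) (rigC _ (hθ1 p hpC) _ (nCS q hq hqD hqC).1)).mp h2
    · have h1 := (rigs q hqC p (ZY p hp hpD) (Zt p hp)).mpr hpq
      have h2 := K1 p hp q hq hpD hqD h1
      rw [θ'2 p hpC, θ'1 q hqC] at h2 ⊢
      exact (rigC _ (hθ1 q hqC) _ (nCS p hp hpD hpC).1).mp h2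
    · have hpz : p ≠ z := ne_of_mem_erase (nCS p hp hpD hpC).1
      have hqz : q ≠ z := ne_of_mem_erase (nCS q hq hqD hqC).1
      rw [θ'2 p hpC, θ'2 q hqC]
      rw [hsne p hpz, hsne q hqz] at hpq
      exact hpq
  have θ'D : ∀ d ∈ D, θ' d = d := fun d hd => θ'2 d fun hcon =>
    ((hYY d).mp (CSY d hcon)).2 hd
  have θ'nD : ∀ q ∈ Z, q ∉ D → ∀ d ∈ D, θ' q ≠ d := by
    intro q hq hqD d hd he
    by_cases hqC : q ∈ CS
    · rw [θ'1 q hqC] at he
      have := ((hCm _).mp (hθ1 q hqC)).1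
      rw [he] at this
      exact ((hYY d).mp this).2 hd
    · rw [θ'2 q hqC] at he
      exact hqD (he ▸ hd)
  have L1 : ∀ p ∈ Z, ∀ q ∈ Z, h t p < h t q → h t (θ' p) < h t (θ' q) := by
    intro p hp q hq hpq
    by_cases hqD : q ∈ D
    · have hne : p ≠ q := fun he => by rw [he] at hpq; exact lt_irrefl _ hpq
      exact absurd hpq (not_lt.mpr (hnorm t ht q hqD p hne).le)
    · by_cases hpD : p ∈ D
      · rw [θ'D p hpD]
        exact hnorm t ht p hpD _ (θ'nD q hq hqD p hpD)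
      · rcases hk t ht htz with e | e
        · have := K1 p hp q hq hpD hqD
          rw [e] at this
          exact this hpq
        · have := K1 q hq p hp hqD hpD
          rw [e] at this
          simp only [neg_lt_neg_iff] at this
          exact this hpq
  have L2 : ∀ p ∈ Z, ∀ q ∈ Z, hs p < hs q → h z (θ' p) < h z (θ' q) := by
    intro p hp q hq hpq
    by_cases hqD : q ∈ D
    · have hne : p ≠ q := fun he => by rw [he] at hpq; exact lt_irrefl _ hpq
      exact absurd hpq (not_lt.mpr (hsD q hqD p hne).le)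
    · by_cases hpD : p ∈ D
      · rw [θ'D p hpD]
        exact hnorm z hz p hpD _ (θ'nD q hq hqD p hpD)
      · exact K2 p hp q hq hpD hqD hpq
  have yZ : ∀ i, y i ∈ Z := fun i => (hy2 _).mpr ⟨i, rfl⟩
  refine mem_Gam_of_valid hf (hinj t) (hinj z) (X := (Y.erase t).erase z)
    ((hval t ht).mono (erase_subset _ _))
    ((hval z hz).mono (by
      intro x hx
      simp only [mem_erase] at hx ⊢
      exact ⟨hx.1, hx.2.2⟩)) (x := θ' ∘ y) ?_ ?_ ?_
  · intro i
    simp only [comp_apply]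
    by_cases hiC : y i ∈ CS
    · rw [θ'1 _ hiC]
      obtain ⟨c1, c2, c3, _, _⟩ := (hCm _).mp (hθ1 _ hiC)
      exact mem_erase.mpr ⟨c3, mem_erase.mpr ⟨c2, ((hYY _).mp c1).1⟩⟩
    · rw [θ'2 _ hiC]
      refine mem_erase.mpr ⟨fun he => hiC ?_, mem_erase.mpr ⟨Zt _ (yZ i),
        ha _ ((hZm _).mp (yZ i))⟩⟩
      rw [hCS, mem_filter]
      exact ⟨yZ i, Or.inl he⟩
  · intro i j hij
    exact L1 _ (yZ i) _ (yZ j) (hy1 hij)
  · intro i j hij
    exact L2 _ (yZ _) _ (yZ _) (hσ hij)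

end Pool.Agent.D0H14.CS
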