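import Pool.Agent.D0H14.CS.Support
import Pool.Agent.Results.MP_75c0e8_co.WeakReconstruction

/-!
# Reconstructibility of functions determined by content and singletons
-/

open Function Finset Equiv Pool.Agent.R795.Min
open Pool.Agent.Results.MP_75c0e8_co.WeakReconstruction

namespace Pool.Agent.D0H14.CS

variable {A B : Type}

theorem rep_of_deck_lt {n : ℕ} {f g : (Fin (n + 1) → A) → B} (h : deck g = deck f)
    {p q : Fin (n + 1)} (hqp : q < p) :
    ∃ t, t ≠ p ∧ ∃ ρ : Perm (Fin (n + 1)), Rep f g p q t ρ := by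
  classical
  have hqn : q.val < n := by have := p.isLt; have := Fin.lt_def.mp hqp; lia
  set i : Fin n := ⟨q.val, hqn⟩ with hi
  have hic : i.castSucc = q := rfl
  have hip : i.castSucc < p := hic ▸ hqp
  have hsa : p.succAbove i = q := by rw [Fin.succAbove_of_castSucc_lt p i hip, hic]
  have hp : (i, p) ∈ pairs n := by
    rw [pairs, mem_filter]
    exact ⟨mem_univ _, hip⟩
  have hmem : Quotient.mk (simSetoid A B n) (minor g i p) ∈ deck g :=
    Multiset.mem_map.mpr ⟨_, hp, rfl⟩
  rw [h] at hmem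
  obtain ⟨⟨i', j'⟩, _, hij⟩ := Multiset.mem_map.mp hmem
  have hsim : Similar (minor g i p) (minor f i' j') :=
    (simSetoid A B n).symm (Quotient.exact hij)
  obtain ⟨τ, hτ⟩ := hsim
  set κ : Perm (Fin (n + 1)) :=
    (finSuccEquiv' j').trans ((Equiv.optionCongr τ).trans (finSuccEquiv' p).symm) with hκ
  have κj : κ j' = p := by simp [hκ]
  have κs : ∀ t, κ (j'.succAbove t) = p.succAbove (τ t) := by intro t; simp [hκ]
  refine ⟨p.succAbove (τ i'), Fin.succAbove_ne _ _, κ, ?_⟩
  intro c hc
  set a : Fin n → A := fun s => c (p.succAbove s) with ha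
  have ai : a i = c p := by rw [ha]; simp only; rw [hsa, hc]
  have e1 : minor g i p a = g c := by
    unfold minor
    congr 1
    funext k
    rcases Fin.eq_self_or_eq_succAbove p k with rfl | ⟨s, rfl⟩
    · rw [Fin.insertNth_apply_same, ai]
    · rw [Fin.insertNth_apply_succAbove]
  rw [← e1, hτ a]
  unfold minor
  congr 1
  funext k
  rcases Fin.eq_self_or_eq_succAbove j' k with rfl | ⟨s, rfl⟩
  · rw [Fin.insertNth_apply_same, κj, update_self]
  · rw [Fin.insertNth_apply_succAbove, κs, update_of_ne (Fin.succAbove_ne _ _)]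

theorem rep_of_deck {n : ℕ} {f g : (Fin (n + 1) → A) → B} (h : deck g = deck f)
    {p q : Fin (n + 1)} (hpq : p ≠ q) :
    ∃ t, t ≠ p ∧ ∃ ρ : Perm (Fin (n + 1)), Rep f g p q t ρ := by
  rcases lt_or_gt_of_ne hpq with hlt | hlt
  · obtain ⟨t, ht, ρ, hρ⟩ := rep_of_deck_lt h hlt
    rcases eq_or_ne t p with rfl | htp
    · refine ⟨q, hpq.symm, ρ, fun c hc => ?_⟩
      rw [hρ c hc.symm]
      congr 1
      funext k
      have e1 : update c q (c t) = c := by rw [hc, update_eq_self]
      have e2 : update c t (c q) = c := by rw [← hc, update_eq_self]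
      rw [e1, e2]
    · refine ⟨t, htp, ρ.trans (swap p q), fun c hc => ?_⟩
      rw [hρ c hc.symm]
      congr 1
      funext k
      simp only [Equiv.trans_apply]
      rcases eq_or_ne (ρ k) p with h1 | h1
      · rw [h1, swap_apply_left, update_of_ne hpq, update_of_ne hpq.symm, hc]
      · rcases eq_or_ne (ρ k) q with h2 | h2
        · rw [h2, swap_apply_right, update_self, update_self]
        · rw [swap_apply_of_ne_of_ne h1 h2, update_of_ne h1, update_of_ne h2]
  · exact rep_of_deck_lt h hlt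

variable [DecidableEq A]

/-- the degenerate case -/
theorem degenerate [Fintype A] {N : ℕ} {f g : (Fin N → A) → B} (hf : DetCS f)
    (hrep : ∀ p q : Fin N, p ≠ q → ∃ t, t ≠ p ∧ ∃ ρ : Perm (Fin N), Rep f g p q t ρ)
    {p q t : Fin N} {ρ : Perm (Fin N)} (hpq : p ≠ q) (htp : t ≠ p) (htq : t ≠ q)
    (h : Rep f g p q t ρ) (hN : Fintype.card A * 4 + 10 < N) : g = f := by
  classical
  have avoid : ∀ F : Finset (Fin N), F.card ≤ 5 → ∃ i, i ∉ F := by
    intro F hF
    by_contra hcon
    push Not at hcon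
    have := card_le_card (show (univ : Finset (Fin N)) ⊆ F from fun i _ => hcon i)
    rw [card_univ, Fintype.card_fin] at this
    lia
  -- two disjoint pairs with the required properties
  have key : ∃ (p q t p' q' t' : Fin N) (ρ ρ' : Perm (Fin N)), Rep f g p q t ρ ∧
      Rep f g p' q' t' ρ' ∧ p ≠ q ∧ t ≠ p ∧ t ≠ q ∧ p' ≠ p ∧ p' ≠ q ∧ q' ≠ p ∧ q' ≠ q ∧
      t' ≠ p ∧ t' ≠ q := by
    obtain ⟨p1, hp1⟩ := avoid {p, q} (card_le_two.trans (by lia))
    obtain ⟨q1, hq1⟩ := avoid {p, q, p1} (card_le_three.trans (by lia))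
    obtain ⟨p2, hp2⟩ := avoid {p, q, p1, q1} (card_le_four.trans (by lia))
    obtain ⟨q2, hq2⟩ := avoid {p, q, p1, q1, p2} (card_le_five.trans (by lia))
    simp only [mem_insert, mem_singleton, not_or] at hp1 hq1 hp2 hq2
    obtain ⟨a1, a2⟩ := hp1
    obtain ⟨b1, b2, b3⟩ := hq1
    obtain ⟨c1, c2, c3, c4⟩ := hp2
    obtain ⟨d1, d2, d3, d4, d5⟩ := hq2
    obtain ⟨t1, ht1, ρ1, hρ1⟩ := hrep p1 q1 (Ne.symm b3)
    obtain ⟨t2, ht2, ρ2, hρ2⟩ := hrep p2 q2 (Ne.symm d5)
    by_cases h1 : t1 ≠ p ∧ t1 ≠ q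
    · exact ⟨p, q, t, p1, q1, t1, ρ, ρ1, h, hρ1, hpq, htp, htq, a1, a2, b1, b2, h1.1, h1.2⟩
    · by_cases h2 : t2 ≠ p ∧ t2 ≠ q
      · exact ⟨p, q, t, p2, q2, t2, ρ, ρ2, h, hρ2, hpq, htp, htq, c1, c2, d1, d2, h2.1, h2.2⟩
      · have h1' : t1 = p ∨ t1 = q := by tauto
        have h2' : t2 = p ∨ t2 = q := by tauto
        refine ⟨p1, q1, t1, p2, q2, t2, ρ1, ρ2, hρ1, hρ2, Ne.symm b3, ht1, ?_, c3, c4, d3, d4,
          ?_, ?_⟩
        · rcases h1' with rfl | rfl
          · exact Ne.symm b1
          · exact Ne.symm b2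
        · rcases h2' with rfl | rfl
          · exact Ne.symm a1
          · exact Ne.symm a2
        · rcases h2' with rfl | rfl
          · exact Ne.symm b1
          · exact Ne.symm b2
  obtain ⟨p, q, t, p', q', t', ρ, ρ', r1, r2, n1, n2, n3, n4, n5, n6, n7, n8, n9⟩ := key
  have hS : Steps f := fun a y hy => steps hf r1 r2 n1 n2 n3 n4 n5 n6 n7 n8 n9 (by lia) a hy
  have hsup := support_determined hf hS (by lia)
  funext c
  have hcard : Fintype.card A < Fintype.card (Fin N) := by
    rw [Fintype.card_fin]; lia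
  obtain ⟨u, v, huv, hc⟩ := Fintype.exists_ne_map_eq_of_card_lt c hcard
  obtain ⟨s, hs, ρ3, hρ3⟩ := hrep u v huv
  rw [hρ3 c hc]
  apply hsup
  intro x
  rw [mul_comp (update c u (c s)) ρ3 x]
  have hiff : 0 < mul (update c u (c s)) x ↔ 0 < mul c x := by
    rw [mul_pos_iff, mul_pos_iff]
    constructor
    · rintro ⟨i, hi⟩
      by_cases hiu : i = u
      · rw [hiu, update_self] at hi; exact ⟨s, hi⟩
      · rw [update_of_ne hiu] at hi; exact ⟨i, hi⟩
    · rintro ⟨i, hi⟩
      by_cases hiu : i = u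
      · refine ⟨v, ?_⟩
        rw [update_of_ne huv.symm, ← hc, ← hiu]; exact hi
      · exact ⟨i, by rw [update_of_ne hiu]; exact hi⟩
  lia

/-- the main case: all minors are represented in the good way -/
theorem nondegenerate [Fintype A] {N : ℕ} {f g : (Fin N → A) → B} (hf : DetCS f)
    (hgood : ∀ p q : Fin N, p ≠ q → ∃ ρ : Perm (Fin N), ∀ c : Fin N → A, c p = c q →
      g c = f (fun k => c (ρ k)))
    (hN : Fintype.card A + 2 < N) {p q : Fin N} (hpq : p ≠ q) :
    ∃ h : Fin N → ℚ, Injective h ∧ Valid f g h ((univ.erase p).erase q) := by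
  classical
  have swap_inv : ∀ (a : Fin N → A) (u v : Fin N), ¬ IsSing a u → ¬ IsSing a v →
      g (fun k => a (swap u v k)) = g a := by
    intro a u v hu hv
    obtain ⟨s, hs, t, ht, hst, hat⟩ := exists_ne_map_eq_of_card_lt_of_maps_to
      (s := (univ : Finset (Fin N)) \ {u, v}) (t := (univ : Finset A)) (f := a) (by
        rw [card_sdiff_of_subset (subset_univ _), card_univ, card_univ, Fintype.card_fin]
        have : ({u, v} : Finset (Fin N)).card ≤ 2 := card_le_two
        lia) (fun _ _ => mem_coe.mpr (mem_univ _))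
    simp only [mem_sdiff, mem_univ, true_and, mem_insert, mem_singleton, not_or] at hs ht
    obtain ⟨ρ, hρ⟩ := hgood s t hst
    have e1 : swap u v s = s := swap_apply_of_ne_of_ne hs.1 hs.2
    have e2 : swap u v t = t := swap_apply_of_ne_of_ne ht.1 ht.2
    rw [hρ a hat, hρ (fun k => a (swap u v k)) (by simp only [e1, e2]; exact hat)]
    have := same_sing hf a ρ (ρ.trans (swap u v)) ?_
    · rw [← this]; rfl
    · intro k hk
      simp only [Equiv.trans_apply]
      exact swap_apply_of_ne_of_ne (fun he => hu (he ▸ hk)) (fun he => hv (he ▸ hk))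
  obtain ⟨ρ, hρ⟩ := hgood p q hpq
  refine ⟨fun i => ((ρ.symm i).val : ℚ), ?_, ?_⟩
  · intro i j hij
    simp only [Nat.cast_inj] at hij
    exact ρ.symm.injective (Fin.ext hij)
  · intro a ha
    have hhi : Injective fun i => ((ρ.symm i).val : ℚ) := by
      intro i j hij
      simp only [Nat.cast_inj] at hij
      exact ρ.symm.injective (Fin.ext hij)
    have hval : f (fun k => a (ρ k)) = Val f (fun i => ((ρ.symm i).val : ℚ)) a := by
      apply Val_eq hf hhi
      intro x y _ _ hxy
      simp only [Equiv.symm_apply_apply, Nat.cast_lt]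
      exact hxy
    rw [← hval]
    have hp : ¬ IsSing a p := fun h => by
      have := ha p h
      simp at this
    have hq : ¬ IsSing a q := fun h => by
      have := ha q h
      simp at this
    by_cases hpq' : a p = a q
    · exact hρ a hpq'
    · have : ∃ u, a u = a q ∧ u ≠ q := by
        by_contra hcon
        push Not at hcon
        exact hq fun k hk => hcon k hk
      obtain ⟨u, hu1, hu2⟩ := this
      have hup : u ≠ p := fun h => hpq' (h ▸ hu1)
      have hus : ¬ IsSing a u := fun h => hu2 (h q hu1.symm).symm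
      rw [← swap_inv a p u hp hus, hρ (fun k => a (swap p u k))]
      · have := same_sing hf a ρ (ρ.trans (swap p u)) ?_
        · rw [← this]; rfl
        · intro k hk
          simp only [Equiv.trans_apply]
          exact swap_apply_of_ne_of_ne (fun he => hp (he ▸ hk)) (fun he => hus (he ▸ hk))
      · simp only [swap_apply_left]
        rw [swap_apply_of_ne_of_ne hpq.symm hu2.symm]
        exact hu1

/-- Functions on a finite set determined by content and singletons are reconstructible when the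
arity is large. -/
theorem reconstructible [Fintype A] {n : ℕ} (hn : 2 * bnd (Fintype.card A) ≤ n)
    {f g : (Fin (n + 1) → A) → B} (hf : DetCS f) (hdeck : deck g = deck f) : Similar g f := by
  classical
  have hb : Fintype.card A * 4 + 21 ≤ 2 * bnd (Fintype.card A) := by
    have h1 : Fintype.card A + 2 ≤ Lsz (Fintype.card A + 2) (Fintype.card A) := by
      unfold Lsz; lia
    have h2 : Lsz (Fintype.card A + 2) (Fintype.card A) ≤
        (2 * Lsz (Fintype.card A + 2) (Fintype.card A)) *
        (2 * Lsz (Fintype.card A + 2) (Fintype.card A)) := by nlinarith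
    unfold bnd
    lia
  have hrep : ∀ p q : Fin (n + 1), p ≠ q →
      ∃ t, t ≠ p ∧ ∃ ρ : Perm (Fin (n + 1)), Rep f g p q t ρ := fun p q hpq =>
    rep_of_deck hdeck hpq
  by_cases hdeg : ∃ (p q t : Fin (n + 1)) (ρ : Perm (Fin (n + 1))), p ≠ q ∧ t ≠ p ∧ t ≠ q ∧
      Rep f g p q t ρ
  · obtain ⟨p, q, t, ρ, h1, h2, h3, h4⟩ := hdeg
    have := degenerate hf hrep h1 h2 h3 h4 (by lia)
    exact ⟨1, fun a => by rw [this]; rfl⟩
  · have hgood : ∀ p q : Fin (n + 1), p ≠ q → ∃ ρ : Perm (Fin (n + 1)), ∀ c : Fin (n + 1) → A,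
        c p = c q → g c = f (fun k => c (ρ k)) := by
      intro p q hpq
      obtain ⟨t, ht, ρ, hρ⟩ := hrep p q hpq
      have htq : t = q := by
        by_contra hcon
        exact hdeg ⟨p, q, t, ρ, hpq, ht, hcon, hρ⟩
      refine ⟨ρ, fun c hc => ?_⟩
      rw [hρ c hc, htq, ← hc, update_eq_self]
    obtain ⟨h, hh, hv⟩ := glue_all hf (by lia) fun p q hpq =>
      nondegenerate hf hgood (by lia) hpq
    refine ⟨Tuple.sort h, fun a => ?_⟩
    exact hv a fun i _ => mem_univ i

end Pool.Agent.D0H14.CS
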