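import Pool.Agent.D0H14.CS.Glue

/-!
# The gluing theorem
-/

open Function Finset Equiv Pool.Agent.R795.Min

namespace Pool.Agent.D0H14.CS

variable {A B : Type} {N : ℕ} [DecidableEq A]

theorem Gam_top_of_large [Fintype A] {f : (Fin N → A) → B} (hf : DetCS f) {r : ℕ}
    (hr : Fintype.card A < r) : Gam hf r = ⊤ := by
  classical
  rw [eq_top_iff]
  intro σ _ a y hy1 hy2
  exfalso
  have h1 := card_sing_le a (univ.image y) (by
    intro u hu
    obtain ⟨i, _, rfl⟩ := mem_image.mp hu
    exact (hy2 _).mpr ⟨i, rfl⟩)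
  rw [card_image_of_injective _ hy1, card_univ, Fintype.card_fin] at h1
  lia

/-- If rotations of the singletons are irrelevant then a valid order can be rotated. -/
theorem rotate_valid [Fintype A] {f g : (Fin N → A) → B} (hf : DetCS f)
    (hrot : ∀ r, finRotate r ∈ Gam hf r) {X : Finset (Fin N)} (x0 : Fin N) :
    ∀ (c : ℕ) (h : Fin N → ℚ), (univ.filter fun y => h y < h x0).card = c → Injective h →
      Valid f g h X → ∃ h' : Fin N → ℚ, Injective h' ∧ Valid f g h' X ∧
        ∀ y, y ≠ x0 → h' x0 < h' y := by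
  classical
  intro c
  induction c with
  | zero =>
    intro h hc hh hv
    refine ⟨h, hh, hv, fun y hy => ?_⟩
    rw [card_eq_zero, filter_eq_empty_iff] at hc
    exact lt_of_le_of_ne (not_lt.mp (hc (mem_univ y))) (hh.ne hy.symm)
  | succ c ih =>
    intro h hc hh hv
    obtain ⟨m, -, hm⟩ := exists_min_image (univ : Finset (Fin N)) h ⟨x0, mem_univ _⟩
    obtain ⟨M0, -, hM0⟩ := exists_max_image (univ : Finset (Fin N)) h ⟨x0, mem_univ _⟩
    set M : ℚ := h M0 + 1 with hM
    have hMlt : ∀ y, h y < M := fun y => (hM0 y (mem_univ y)).trans_lt (lt_add_one _)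
    have hmx : h m < h x0 := by
      obtain ⟨y, hy⟩ := card_pos.mp (show 0 < (univ.filter fun y => h y < h x0).card by lia)
      exact (hm y (mem_univ y)).trans_lt (mem_filter.mp hy).2
    have hmx0 : x0 ≠ m := fun he => by rw [he] at hmx; exact lt_irrefl _ hmx
    set h' : Fin N → ℚ := update h m M with hh'
    have e1 : h' m = M := update_self _ _ _
    have e2 : ∀ x, x ≠ m → h' x = h x := fun x hx => update_of_ne hx _ _
    have hinj' : Injective h' := by
      intro x y hxy
      rcases eq_or_ne x m with rfl | hx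
      · rcases eq_or_ne y x with rfl | hy
        · rfl
        · rw [e1, e2 y hy] at hxy
          exact absurd hxy (hMlt y).ne'
      · rcases eq_or_ne y m with rfl | hy
        · rw [e1, e2 x hx] at hxy
          exact absurd hxy (hMlt x).ne
        · rw [e2 x hx, e2 y hy] at hxy
          exact hh hxy
    apply ih h' ?_ hinj'
    · intro a ha
      rw [hv a ha]
      obtain ⟨r, y, -, hy1, hy2⟩ := exists_enum_sing hh a
      by_cases hma : IsSing a m
      · obtain ⟨i0, hi0⟩ := (hy2 m).mp hma
        rcases r with _ | r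
        · exact i0.elim0
        have hy0 : y 0 = m := by
          rcases eq_or_ne (y 0) m with h1 | h1
          · exact h1
          · exfalso
            have h2 : (0 : Fin (r + 1)) ≠ i0 := fun he => h1 (by rw [he, hi0])
            have h3 : h (y 0) < h (y i0) := hy1 (Fin.pos_of_ne_zero h2.symm)
            rw [hi0] at h3
            exact absurd h3 (not_lt.mpr (hm _ (mem_univ _)))
        have hyc : y = Fin.cons m (y ∘ Fin.succ) := by
          funext i
          rcases Fin.eq_zero_or_eq_succ i with rfl | ⟨i, rfl⟩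
          · simp [hy0]
          · simp
        refine Val_of_mem_Gam hf (hrot (r + 1)) a hy2 hh hinj' hy1 ?_
        have e3 : h' ∘ y ∘ ⇑(finRotate (r + 1)) = Fin.snoc (h ∘ y ∘ Fin.succ) M := by
          funext i
          have e := congrFun (Fin.snoc_eq_cons_rotate (y ∘ Fin.succ) m) i
          simp only [comp_apply]
          rw [hyc, ← e]
          rcases Fin.eq_castSucc_or_eq_last i with ⟨i, rfl⟩ | rfl
          · simp only [Fin.snoc_castSucc, comp_apply]
            rw [Fin.cons_succ, comp_apply, e2]
            intro he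
            rw [← hy0] at he
            have h4 : h (y 0) < h (y i.succ) := hy1 (Fin.succ_pos i)
            rw [he] at h4
            exact lt_irrefl _ h4
          · simp [e1]
        rw [e3]
        apply strictMono_snoc
        · intro i; exact hMlt _
        · intro i j hij; exact hy1 (Fin.succ_lt_succ_iff.mpr hij)
      · apply Val_congr hf hh hinj'
        intro p q hp hq hpq
        rw [e2 p fun he => hma (he ▸ hp), e2 q fun he => hma (he ▸ hq)]
        exact hpq
    · have : (univ.filter fun y => h' y < h' x0) = (univ.filter fun y => h y < h x0).erase m := by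
        ext y
        simp only [mem_filter, mem_univ, true_and, mem_erase]
        rw [e2 x0 hmx0]
        rcases eq_or_ne y m with rfl | hy
        · rw [e1]
          simp only [ne_eq, not_true_eq_false, false_and, iff_false, not_lt]
          exact (hMlt x0).le
        · rw [e2 y hy]
          simp [hy]
      have hm' : m ∈ univ.filter fun y => h y < h x0 := mem_filter.mpr ⟨mem_univ _, hmx⟩
      rw [this, card_erase_of_mem hm', hc]
      rfl

/-- the arities from which on everything works -/
def bnd (k : ℕ) : ℕ := 2 * ((2 * Lsz (k + 2) k) * (2 * Lsz (k + 2) k)) + 21 + k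

theorem bnd_le {k n : ℕ} (hn : n ≤ k) :
    2 * ((2 * Lsz (k + 2) n) * (2 * Lsz (k + 2) n)) + 20 + k + 1 ≤ bnd k := by
  have h1 : Lsz (k + 2) n ≤ Lsz (k + 2) k := by unfold Lsz; lia
  have h2 : (2 * Lsz (k + 2) n) * (2 * Lsz (k + 2) n) ≤
      (2 * Lsz (k + 2) k) * (2 * Lsz (k + 2) k) := Nat.mul_le_mul (by lia) (by lia)
  unfold bnd
  lia

/-- the gluing step -/
theorem glue_step [Fintype A] {f g : (Fin N → A) → B} (hf : DetCS f) {Y : Finset (Fin N)}
    (hbig : bnd (Fintype.card A) ≤ Y.card)
    (h : ∀ t ∈ Y, ∃ h : Fin N → ℚ, Injective h ∧ Valid f g h (Y.erase t)) :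
    ∃ h' : Fin N → ℚ, Injective h' ∧ Valid f g h' Y := by
  classical
  have hdef : Injective fun p : Fin N => (p.val : ℚ) := fun a b hab =>
    Fin.ext (by simpa using hab)
  by_cases hT0 : ∀ r, Gam hf r = ⊤
  · obtain ⟨t, ht⟩ : Y.Nonempty := by
      rw [← card_pos]
      have := bnd_le (le_refl (Fintype.card A))
      lia
    obtain ⟨h0, hh0, -⟩ := h t ht
    refine ⟨h0, hh0, ?_⟩
    intro a ha
    set Z : Finset (Fin N) := univ.filter fun p => IsSing a p with hZdef
    have hZm : ∀ p, p ∈ Z ↔ IsSing a p := fun p => by rw [hZdef, mem_filter]; simp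
    have hZc : Z.card ≤ Fintype.card A := card_sing_le a Z fun u hu => (hZm u).mp hu
    obtain ⟨t', ht', htZ⟩ : ∃ t' ∈ Y, t' ∉ Z := by
      by_contra hcon
      push Not at hcon
      have h1 := card_le_card (show Y ⊆ Z from hcon)
      have := bnd_le (le_refl (Fintype.card A))
      lia
    obtain ⟨h1, hh1, hv1⟩ := h t' ht'
    rw [hv1 a fun i hi => mem_erase.mpr ⟨fun he => htZ ((hZm _).mpr (he ▸ hi)), ha i hi⟩]
    obtain ⟨r, y, -, hy1, hy2⟩ := exists_enum_sing hh1 a
    obtain ⟨σ, hσ⟩ := exists_sort (hh0.comp (Injective.of_comp hy1.injective))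
    refine Val_of_mem_Gam hf (σ := σ) ?_ a hy2 hh1 hh0 hy1 hσ
    rw [hT0]; exact Subgroup.mem_top _
  push Not at hT0
  by_cases hT1 : ∀ r, finRotate r ∈ Gam hf r
  · obtain ⟨r0, hr0⟩ := hT0
    rcases r0 with _ | n
    · exfalso
      apply hr0
      rw [eq_top_iff]
      intro σ _
      have : σ = 1 := Equiv.ext fun i => i.elim0
      rw [this]; exact Subgroup.one_mem _
    rcases n with _ | n
    · exfalso
      apply hr0
      rw [eq_top_iff]
      intro σ _
      have : σ = 1 := Equiv.ext fun i => Fin.ext (by lia)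
      rw [this]; exact Subgroup.one_mem _
    have hnk : n ≤ Fintype.card A := by
      by_contra hcon
      exact hr0 (Gam_top_of_large hf (by lia))
    obtain ⟨x0, hx0⟩ : Y.Nonempty := by
      rw [← card_pos]
      have := bnd_le (le_refl (Fintype.card A))
      lia
    have h2 : ∀ t ∈ Y, ∃ h : Fin N → ℚ, Injective h ∧ Valid f g h (Y.erase t) ∧
        ∀ y, y ≠ x0 → h x0 < h y := by
      intro t ht
      obtain ⟨h1, hh1, hv1⟩ := h t ht
      exact rotate_valid hf hT1 x0 _ h1 rfl hh1 hv1
    choose! k hk1 hk2 hk3 using h2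
    set k' : Fin N → Fin N → ℚ := fun t => if t ∈ Y then k t else fun p => (p.val : ℚ) with hk'
    have ek : ∀ t ∈ Y, k' t = k t := fun t ht => if_pos ht
    have hYD : ∀ t ∈ Y \ {x0}, t ∈ Y := fun t ht => (mem_sdiff.mp ht).1
    refine glue_core hf (D := {x0}) (n := n)
      (H := (Gam hf (n + 2)).comap (shiftHom (n + 1))) ?_ k' ?_ ?_ ?_ ?_ ?_
    · intro hcon
      exact hr0 (top_of_rot (hT1 (n + 2)) (Subgroup.mem_comap.mp hcon))
    · intro t
      by_cases ht : t ∈ Y
      · rw [ek t ht]; exact hk1 t ht
      · rw [hk']; simp only [if_neg ht]; exact hdef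
    · intro t ht
      rw [ek t (hYD t ht)]; exact hk2 t (hYD t ht)
    · intro t ht d hd y hy
      rw [mem_singleton] at hd
      subst hd
      rw [ek t (hYD t ht)]; exact hk3 t (hYD t ht) y hy
    · intro s hs t ht hst x hx h1 σ h2
      rw [ek s (hYD s hs)] at h1
      rw [ek t (hYD t ht)] at h2
      rw [Subgroup.mem_comap]
      have hxY : ∀ i, x i ∈ Y ∧ x i ≠ x0 ∧ x i ≠ s ∧ x i ≠ t := by
        intro i
        have := hx i
        simp only [mem_erase, mem_sdiff, mem_singleton] at this
        exact ⟨this.2.2.1, this.2.2.2, this.2.1, this.1⟩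
      have hs0 : x0 ≠ s := fun he => (mem_sdiff.mp hs).2 (by rw [he]; exact mem_singleton_self _)
      have ht0 : x0 ≠ t := fun he => (mem_sdiff.mp ht).2 (by rw [he]; exact mem_singleton_self _)
      refine mem_Gam_of_valid hf (hk1 s (hYD s hs)) (hk1 t (hYD t ht))
        (X := (Y.erase s).erase t) ((hk2 s (hYD s hs)).mono (erase_subset _ _))
        ((hk2 t (hYD t ht)).mono ?_) (x := Fin.cons x0 x) ?_ ?_ ?_
      · intro p hp
        simp only [mem_erase] at hp ⊢
        exact ⟨hp.1, hp.2.2⟩
      · intro i
        rcases Fin.eq_zero_or_eq_succ i with rfl | ⟨i, rfl⟩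
        · simp only [Fin.cons_zero, mem_erase]
          exact ⟨ht0, hs0, hx0⟩
        · simp only [Fin.cons_succ, mem_erase]
          exact ⟨(hxY i).2.2.2, (hxY i).2.2.1, (hxY i).1⟩
      · have : k s ∘ (Fin.cons x0 x : Fin (n + 2) → Fin N) = Fin.cons (k s x0) (k s ∘ x) := by
          funext i
          rcases Fin.eq_zero_or_eq_succ i with rfl | ⟨i, rfl⟩ <;> simp
        rw [this]
        exact strictMono_cons (fun i => hk3 s (hYD s hs) _ (hxY i).2.1) h1
      · have : k t ∘ (Fin.cons x0 x : Fin (n + 2) → Fin N) ∘ ⇑(shiftHom (n + 1) σ) =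
            Fin.cons (k t x0) (k t ∘ x ∘ σ) := by
          funext i
          rcases Fin.eq_zero_or_eq_succ i with rfl | ⟨i, rfl⟩
          · simp [shiftHom_zero]
          · simp [shiftHom_succ]
        rw [this]
        exact strictMono_cons (fun i => hk3 t (hYD t ht) _ (hxY _).2.1) h2
    · have h3 : (Y \ {x0}).card = Y.card - 1 := by
        rw [sdiff_singleton_eq_erase, card_erase_of_mem hx0]
      have := bnd_le hnk
      lia
  · push Not at hT1
    obtain ⟨r, hr⟩ := hT1
    rcases r with _ | n
    · exfalso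
      apply hr
      have : finRotate 0 = 1 := Equiv.ext fun i => i.elim0
      rw [this]; exact Subgroup.one_mem _
    have hnk : n ≤ Fintype.card A := by
      by_contra hcon
      apply hr
      rw [Gam_top_of_large hf (by lia)]; exact Subgroup.mem_top _
    choose! k hk1 hk2 using h
    set k' : Fin N → Fin N → ℚ := fun t => if t ∈ Y then k t else fun p => (p.val : ℚ) with hk'
    have ek : ∀ t ∈ Y, k' t = k t := fun t ht => if_pos ht
    have hYD : ∀ t ∈ Y \ ∅, t ∈ Y := fun t ht => (mem_sdiff.mp ht).1
    refine glue_core hf (D := ∅) (n := n) (H := Gam hf (n + 1)) hr k' ?_ ?_ ?_ ?_ ?_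
    · intro t
      by_cases ht : t ∈ Y
      · rw [ek t ht]; exact hk1 t ht
      · rw [hk']; simp only [if_neg ht]; exact hdef
    · intro t ht
      rw [ek t (hYD t ht)]; exact hk2 t (hYD t ht)
    · intro t ht d hd
      simp at hd
    · intro s hs t ht hst
      rw [ek s (hYD s hs), ek t (hYD t ht)]
      have h1 := Rel_of_valid hf (hk1 s (hYD s hs)) (hk1 t (hYD t ht))
        (X := (Y.erase s).erase t) ((hk2 s (hYD s hs)).mono (erase_subset _ _))
        ((hk2 t (hYD t ht)).mono (by
          intro p hp
          simp only [mem_erase] at hp ⊢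
          exact ⟨hp.1, hp.2.2⟩)) (n + 1)
      rw [sdiff_empty]
      exact h1
    · rw [sdiff_empty]
      have := bnd_le hnk
      lia

/-- The gluing theorem: if for every pair of positions some order computes `g` from `f` on all
tuples whose singletons avoid the pair, then `g` is similar to `f`. -/
theorem glue_all [Fintype A] {f g : (Fin N → A) → B} (hf : DetCS f)
    (hbig : bnd (Fintype.card A) + 1 ≤ N)
    (h : ∀ p q : Fin N, p ≠ q → ∃ h : Fin N → ℚ, Injective h ∧
      Valid f g h ((univ.erase p).erase q)) :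
    ∃ h' : Fin N → ℚ, Injective h' ∧ Valid f g h' univ := by
  classical
  apply glue_step hf (by rw [card_univ, Fintype.card_fin]; lia)
  intro p _
  apply glue_step hf (by rw [card_erase_of_mem (mem_univ _), card_univ, Fintype.card_fin]; lia)
  intro q hq
  exact h p q (ne_of_mem_erase hq).symm

end Pool.Agent.D0H14.CS
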