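import Pool.Agent.D0H14.CS.Step

/-!
# The degenerate case: functions determined by the set of their arguments
-/

open Function Finset Equiv Pool.Agent.R795.Min

namespace Pool.Agent.D0H14.CS

variable {A B : Type} {N : ℕ} [DecidableEq A]

/-- multiplicity of a value in a tuple -/
def mul (a : Fin N → A) (v : A) : ℕ := (univ.filter fun i => a i = v).card

theorem mul_comp (a : Fin N → A) (ρ : Perm (Fin N)) (v : A) :
    mul (fun k => a (ρ k)) v = mul a v := by
  unfold mul
  rw [← card_image_of_injective _ ρ.injective]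
  congr 1
  ext i
  simp only [mem_image, mem_filter, mem_univ, true_and]
  constructor
  · rintro ⟨j, hj, rfl⟩; exact hj
  · intro hi; exact ⟨ρ.symm i, by simpa using hi, by simp⟩

theorem mul_update (a : Fin N → A) (p : Fin N) (x v : A) :
    mul (update a p x) v + (if a p = v then 1 else 0) = mul a v + (if x = v then 1 else 0) := by
  unfold mul
  have h1 : ∀ b : Fin N → A, (univ.filter fun i => b i = v).card =
      (if b p = v then 1 else 0) + ((univ.erase p).filter fun i => b i = v).card := by
    intro b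
    have : (univ : Finset (Fin N)) = insert p (univ.erase p) := by
      rw [insert_erase (mem_univ p)]
    conv_lhs => rw [this]
    rw [filter_insert]
    split_ifs with h
    · rw [card_insert_of_notMem (by simp), add_comm]
    · simp
  rw [h1 (update a p x), h1 a]
  have h2 : ((univ.erase p).filter fun i => update a p x i = v) =
      ((univ.erase p).filter fun i => a i = v) := by
    apply filter_congr
    intro i hi
    rw [update_of_ne (ne_of_mem_erase hi)]
  rw [h2, update_self]
  lia

theorem isSing_iff (a : Fin N → A) (i : Fin N) : IsSing a i ↔ mul a (a i) = 1 := by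
  unfold mul
  rw [card_eq_one]
  constructor
  · intro h
    refine ⟨i, ?_⟩
    ext k
    simp only [mem_filter, mem_univ, true_and, mem_singleton]
    exact ⟨fun hk => h k hk, fun hk => by rw [hk]⟩
  · rintro ⟨j, hj⟩ k hk
    have h1 : i ∈ univ.filter fun k => a k = a i := by simp
    have h2 : k ∈ univ.filter fun k => a k = a i := by simpa using hk
    rw [hj, mem_singleton] at h1 h2
    rw [h1, h2]

theorem mul_pos_iff (a : Fin N → A) (v : A) : 0 < mul a v ↔ ∃ i, a i = v := by
  unfold mul
  rw [card_pos]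
  constructor
  · rintro ⟨i, hi⟩; exact ⟨i, (mem_filter.mp hi).2⟩
  · rintro ⟨i, hi⟩; exact ⟨i, mem_filter.mpr ⟨mem_univ _, hi⟩⟩

theorem sum_mul [Fintype A] (a : Fin N → A) : ∑ v, mul a v = N := by
  unfold mul
  rw [← card_eq_sum_card_fiberwise (f := a) (s := univ) (t := univ) (fun _ _ => mem_coe.mpr
    (mem_univ _)), card_univ, Fintype.card_fin]

theorem exists_big [Fintype A] (a : Fin N → A) {m : ℕ} (h : Fintype.card A * m < N) :
    ∃ y, m < mul a y := by
  obtain ⟨c, _, hc⟩ : ∃ c ∈ (univ : Finset A), m < (univ.filter fun k => a k = c).card := by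
    apply exists_lt_card_fiber_of_mul_lt_card_of_maps_to (fun _ _ => mem_univ _)
    rw [card_univ, card_univ, Fintype.card_fin]
    exact h
  exact ⟨c, hc⟩

/-- without singletons a function determined by content and singletons depends on the
multiplicities only -/
theorem eq_of_mul {f : (Fin N → A) → B} (hf : DetCS f) {a b : Fin N → A}
    (h1 : ∀ v, mul a v ≠ 1) (h2 : ∀ v, mul a v = mul b v) : f a = f b := by
  apply hf
  · ext v
    have : ∀ c : Fin N → A, Multiset.count v (content c) = mul c v := by
      intro c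
      unfold content mul
      rw [Multiset.count_map]
      change (univ.filter fun i => v = c i).card = _
      congr 1
      ext i
      simp only [mem_filter, mem_univ, true_and]
      constructor <;> intro h <;> exact h.symm
    rw [this, this, h2]
  · have : ∀ c : Fin N → A, (∀ v, mul c v ≠ 1) → sing c = [] := by
      intro c hc
      unfold sing
      rw [List.filter_eq_nil_iff]
      intro v _
      rw [count_ofFn]
      have := hc v
      unfold mul at this
      simpa using this
    rw [this a h1, this b fun v => by rw [← h2]; exact h1 v]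

/-- if the singletons are found at the same indices the values of `f` agree -/
theorem same_sing {f : (Fin N → A) → B} (hf : DetCS f) (a : Fin N → A) (τ τ' : Perm (Fin N))
    (h : ∀ k, IsSing a (τ k) → τ' k = τ k) :
    f (fun k => a (τ' k)) = f (fun k => a (τ k)) := by
  have e : (fun k => a (τ' k)) = fun k => (fun k => a (τ k)) ((τ'.trans τ.symm) k) := by
    funext k; simp
  rw [e]
  refine hf.comp (fun k => a (τ k)) (τ'.trans τ.symm) ?_
  have key : ∀ x, IsSing (fun k => a (τ k)) ((τ'.trans τ.symm) x) →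
      (τ'.trans τ.symm) x = x := by
    intro x hx
    rw [isSing_comp] at hx
    simp only [Equiv.trans_apply] at hx ⊢
    have h1 := h _ hx
    rw [Equiv.apply_symm_apply] at h1
    exact τ'.injective h1
  intro x y hx hy hxy
  rw [key x hx, key y hy]
  exact hxy

theorem exists_perm_on (S : Finset (Fin N)) (F : Fin N → Fin N) (hF : Set.InjOn F S) :
    ∃ τ : Perm (Fin N), ∀ i ∈ S, τ i = F i := by
  classical
  set e := S.equivFin.symm with he
  have h1 : Injective fun i : Fin S.card => (e i : Fin N) :=
    Subtype.val_injective.comp e.injective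
  have h2 : Injective fun i : Fin S.card => F (e i) := by
    intro i j hij
    exact h1 (hF (e i).2 (e j).2 hij)
  obtain ⟨π, hπ⟩ := exists_perm_extend h1 h2
  refine ⟨π, fun i hi => ?_⟩
  have := hπ (S.equivFin ⟨i, hi⟩)
  simpa [he] using this

/-- injection of a finset into the positions of `y` -/
theorem exists_inj_into (a : Fin N → A) (y : A) (E : Finset (Fin N)) (hE : E.card ≤ mul a y) :
    ∃ F : Fin N → Fin N, (∀ i ∈ E, a (F i) = y) ∧ Set.InjOn F E := by
  classical
  have : E.card ≤ (univ.filter fun i => a i = y).card := hE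
  obtain ⟨φ⟩ : Nonempty (E ↪ (univ.filter fun i => a i = y)) := by
    rw [Function.Embedding.nonempty_iff_card_le, Fintype.card_coe, Fintype.card_coe]
    exact this
  refine ⟨fun i => if hi : i ∈ E then (φ ⟨i, hi⟩ : Fin N) else i, ?_, ?_⟩
  · intro i hi
    simp only [dif_pos hi]
    exact (mem_filter.mp (φ ⟨i, hi⟩).2).2
  · intro i hi j hj hij
    simp only [mem_coe] at hi hj
    simp only [dif_pos hi, dif_pos hj] at hij
    have := φ.injective (Subtype.val_injective hij)
    exact congrArg Subtype.val this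

/-- placing `y` on `E` and a given value at `i0`, when there are no singletons -/
theorem place_nosing {f : (Fin N → A) → B} (hf : DetCS f) {a : Fin N → A}
    (hs : ∀ v, mul a v ≠ 1) {y x : A} (hxy : x ≠ y) (hx : 0 < mul a x) {E : Finset (Fin N)}
    (hE : E.card ≤ mul a y) {i0 : Fin N} (hi0 : i0 ∉ E) :
    ∃ τ : Perm (Fin N), (∀ e ∈ E, a (τ e) = y) ∧ a (τ i0) = x ∧
      f (fun k => a (τ k)) = f a := by
  classical
  obtain ⟨F, hF1, hF2⟩ := exists_inj_into a y E hE
  obtain ⟨q, hq⟩ := (mul_pos_iff a x).mp hx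
  obtain ⟨τ, hτ⟩ := exists_perm_on (insert i0 E) (fun i => if i = i0 then q else F i) (by
    have ne : ∀ i ∈ E, F i ≠ q := fun i hi he => hxy (by rw [← hq, ← he, hF1 i hi])
    have ni : ∀ i ∈ E, i ≠ i0 := fun i hi he => hi0 (he ▸ hi)
    intro i hi j hj hij
    simp only [coe_insert, Set.mem_insert_iff, mem_coe] at hi hj
    simp only at hij
    rcases hi with rfl | hi <;> rcases hj with rfl | hj
    · rfl
    · rw [if_pos rfl, if_neg (ni j hj)] at hij
      exact absurd hij.symm (ne j hj)
    · rw [if_pos rfl, if_neg (ni i hi)] at hij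
      exact absurd hij (ne i hi)
    · rw [if_neg (ni i hi), if_neg (ni j hj)] at hij
      exact hF2 hi hj hij)
  refine ⟨τ, ?_, ?_, ?_⟩
  · intro e he
    rw [hτ e (mem_insert_of_mem he), if_neg (fun h : e = i0 => hi0 (h ▸ he))]
    exact hF1 e he
  · rw [hτ i0 (mem_insert_self _ _), if_pos rfl]; exact hq
  · apply hf.comp
    intro u v hu
    exact absurd ((isSing_iff a _).mp hu) (hs _)

/-- placing `y` on `E` and some singleton at `i0` -/
theorem place_sing [Fintype A] {f : (Fin N → A) → B} (hf : DetCS f) {a : Fin N → A}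
    {z0 : Fin N} (hs : IsSing a z0) {y : A} {E : Finset (Fin N)} (hy : 2 ≤ mul a y)
    (hE : E.card ≤ mul a y) {i0 : Fin N} (hi0 : i0 ∉ E) (hN : E.card + Fintype.card A ≤ N) :
    ∃ τ : Perm (Fin N), (∀ e ∈ E, a (τ e) = y) ∧ IsSing a (τ i0) ∧
      f (fun k => a (τ k)) = f a := by
  classical
  obtain ⟨F, hF1, hF2⟩ := exists_inj_into a y E hE
  set Z : Finset (Fin N) := univ.filter fun p => IsSing a p with hZdef
  have hZm : ∀ p, p ∈ Z ↔ IsSing a p := fun p => by rw [hZdef, mem_filter]; simp
  have hZc : Z.card ≤ Fintype.card A := card_sing_le a Z fun u hu => (hZm u).mp hu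
  have hZ1 : 1 ≤ Z.card := card_pos.mpr ⟨z0, (hZm z0).mpr hs⟩
  obtain ⟨T, hT1, hT2, hT3⟩ := exists_subsuperset_card_eq (s := {i0}) (t := univ \ E)
    (n := Z.card) (by
      intro i hi
      rw [mem_singleton] at hi
      rw [hi, mem_sdiff]
      exact ⟨mem_univ _, hi0⟩) (by rw [card_singleton]; exact hZ1) (by
      rw [card_sdiff_of_subset (subset_univ _), card_univ, Fintype.card_fin]
      lia)
  have hTi0 : i0 ∈ T := hT1 (mem_singleton_self _)
  have hTE : ∀ i ∈ T, i ∉ E := fun i hi => (mem_sdiff.mp (hT2 hi)).2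
  set G : Fin Z.card ≃o T := T.orderIsoOfFin hT3 with hG
  set K : Fin Z.card ≃o Z := Z.orderIsoOfFin rfl with hK
  set F' : Fin N → Fin N := fun i => if hi : i ∈ T then (K (G.symm ⟨i, hi⟩) : Fin N) else F i
    with hF'
  have F'1 : ∀ i (hi : i ∈ T), F' i = K (G.symm ⟨i, hi⟩) := fun i hi => dif_pos hi
  have F'2 : ∀ i ∈ E, F' i = F i := fun i hi => dif_neg fun h => hTE i h hi
  have F'Z : ∀ i ∈ T, IsSing a (F' i) := by
    intro i hi
    rw [F'1 i hi]
    exact (hZm _).mp (K (G.symm ⟨i, hi⟩)).2
  have F'E : ∀ i ∈ E, ¬ IsSing a (F' i) := by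
    intro i hi hcon
    rw [F'2 i hi, isSing_iff, hF1 i hi] at hcon
    lia
  have hlt : ∀ i (hi : i ∈ T) j (hj : j ∈ T), i < j → F' i < F' j := by
    intro i hi j hj hij
    rw [F'1 i hi, F'1 j hj]
    have h1 : (⟨i, hi⟩ : T) < ⟨j, hj⟩ := hij
    have h2 : K (G.symm ⟨i, hi⟩) < K (G.symm ⟨j, hj⟩) :=
      K.strictMono (G.symm.strictMono h1)
    exact h2
  obtain ⟨τ, hτ⟩ := exists_perm_on (T ∪ E) F' (by
    intro i hi j hj hij
    simp only [coe_union, Set.mem_union, mem_coe] at hi hj
    rcases hi with hi | hi <;> rcases hj with hj | hj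
    · rcases lt_trichotomy i j with h | h | h
      · exact absurd hij (hlt i hi j hj h).ne
      · exact h
      · exact absurd hij (hlt j hj i hi h).ne'
    · exact absurd (hij ▸ F'Z i hi) (F'E j hj)
    · exact absurd (hij ▸ F'Z j hj) (F'E i hi)
    · rw [F'2 i hi, F'2 j hj] at hij
      exact hF2 hi hj hij)
  have hτT : ∀ i ∈ T, τ i = F' i := fun i hi => hτ i (mem_union_left _ hi)
  refine ⟨τ, ?_, ?_, ?_⟩
  · intro e he
    rw [hτ e (mem_union_right _ he), F'2 e he]
    exact hF1 e he
  · rw [hτT i0 hTi0]; exact F'Z i0 hTi0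
  · have hsur : ∀ x, IsSing a (τ x) → x ∈ T := by
      intro x hx
      have hxZ : τ x ∈ Z := (hZm _).mpr hx
      set j := G (K.symm ⟨τ x, hxZ⟩) with hj
      have h1 : τ j = τ x := by
        rw [hτT j j.2, F'1 j j.2]
        simp [hj]
      rw [← τ.injective h1]
      exact j.2
    apply hf.comp
    intro u v hu hv huv
    rw [hτT u (hsur u hu), hτT v (hsur v hv)]
    exact hlt u (hsur u hu) v (hsur v hv) huv

/-- a representation of an identification minor of `g` -/
def Rep (f g : (Fin N → A) → B) (p q t : Fin N) (ρ : Perm (Fin N)) : Prop :=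
  ∀ c : Fin N → A, c p = c q → g c = f (fun k => update c p (c t) (ρ k))

/-- The transfer step. -/
theorem transfer {f g : (Fin N → A) → B} {p q t p' q' t' : Fin N} {ρ ρ' : Perm (Fin N)}
    (h1 : Rep f g p q t ρ) (h2 : Rep f g p' q' t' ρ') (hpq : p ≠ q) (htp : t ≠ p)
    (hp'p : p' ≠ p) (hq'p : q' ≠ p) (ht'p : t' ≠ p) (τ : Perm (Fin N)) (a : Fin N → A) {x y : A}
    (hE : ∀ e ∈ ({p, p', q', t, t'} : Finset (Fin N)).image ρ.symm, a (τ e) = y)
    (hx : a (τ (ρ.symm q)) = x) :
    ∃ b : Fin N → A, f b = f (fun k => a (τ k)) ∧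
      ∀ v, mul b v + (if y = v then 1 else 0) = mul a v + (if x = v then 1 else 0) := by
  have hE' : ∀ e ∈ ({p, p', q', t, t'} : Finset (Fin N)), a (τ (ρ.symm e)) = y :=
    fun e he => hE _ (mem_image_of_mem _ he)
  set d : Fin N → A := fun i => a (τ (ρ.symm i)) with hd
  have dp : d p = y := hE' p (by simp)
  have dp' : d p' = y := hE' p' (by simp)
  have dq' : d q' = y := hE' q' (by simp)
  have dt : d t = y := hE' t (by simp)
  have dt' : d t' = y := hE' t' (by simp)
  have dq : d q = x := hx
  set c : Fin N → A := update d p x with hc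
  have cp : c p = x := update_self _ _ _
  have cne : ∀ i, i ≠ p → c i = d i := fun i hi => update_of_ne hi _ _
  have e1 : g c = f (fun k => d (ρ k)) := by
    rw [h1 c (by rw [cp, cne q hpq.symm, dq])]
    congr 1
    funext k
    rw [cne t htp, dt]
    by_cases hk : ρ k = p
    · rw [hk, update_self, dp]
    · rw [update_of_ne hk, cne _ hk]
  have e2 : g c = f (fun k => c (ρ' k)) := by
    rw [h2 c (by rw [cne p' hp'p, cne q' hq'p, dp', dq'])]
    congr 1
    funext k
    rw [cne t' ht'p, dt']
    by_cases hk : ρ' k = p'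
    · rw [hk, update_self, cne p' hp'p, dp']
    · rw [update_of_ne hk]
  refine ⟨fun k => c (ρ' k), ?_, ?_⟩
  · rw [← e2, e1]
    congr 1
    funext k
    simp [hd]
  · intro v
    rw [mul_comp c ρ' v]
    have h3 := mul_update d p x v
    have h4 : mul d v = mul a v := by
      have := mul_comp a (ρ.symm.trans τ) v
      rw [← this]; rfl
    rw [dp] at h3
    rw [hc, h3, h4]

/-- one step in the absence of singletons, and one step in their presence -/
theorem steps [Fintype A] {f g : (Fin N → A) → B} (hf : DetCS f) {p q t p' q' t' : Fin N}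
    {ρ ρ' : Perm (Fin N)}
    (h1 : Rep f g p q t ρ) (h2 : Rep f g p' q' t' ρ') (hpq : p ≠ q) (htp : t ≠ p) (htq : t ≠ q)
    (hp'p : p' ≠ p) (hp'q : p' ≠ q) (hq'p : q' ≠ p) (hq'q : q' ≠ q) (ht'p : t' ≠ p)
    (ht'q : t' ≠ q) (hN : 5 + Fintype.card A ≤ N) (a : Fin N → A) {y : A} (hy : 5 ≤ mul a y) :
    ((∀ v, mul a v ≠ 1) → ∀ x, x ≠ y → 0 < mul a x → ∃ b : Fin N → A, f b = f a ∧
      ∀ v, mul b v + (if y = v then 1 else 0) = mul a v + (if x = v then 1 else 0)) ∧
    ((∃ v, mul a v = 1) → ∃ x, mul a x = 1 ∧ ∃ b : Fin N → A, f b = f a ∧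
      ∀ v, mul b v + (if y = v then 1 else 0) = mul a v + (if x = v then 1 else 0)) := by
  classical
  set E : Finset (Fin N) := ({p, p', q', t, t'} : Finset (Fin N)).image ρ.symm with hE
  have hEc : E.card ≤ 5 := card_image_le.trans card_le_five
  have hi0 : ρ.symm q ∉ E := by
    intro hcon
    obtain ⟨e, he, heq⟩ := mem_image.mp hcon
    have := ρ.symm.injective heq
    subst this
    simp only [mem_insert, mem_singleton] at he
    rcases he with h | h | h | h | h
    · exact hpq h.symm
    · exact hp'q h.symm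
    · exact hq'q h.symm
    · exact htq h.symm
    · exact ht'q h.symm
  constructor
  · intro hs x hxy hx
    obtain ⟨τ, hτ1, hτ2, hτ3⟩ := place_nosing hf hs hxy hx (hEc.trans hy) hi0
    obtain ⟨b, hb1, hb2⟩ := transfer h1 h2 hpq htp hp'p hq'p ht'p τ a hτ1 hτ2
    exact ⟨b, hb1.trans hτ3, hb2⟩
  · rintro ⟨v, hv⟩
    obtain ⟨z0, hz0⟩ := (mul_pos_iff a v).mp (by lia)
    have hsz : IsSing a z0 := (isSing_iff a z0).mpr (by rw [hz0]; exact hv)
    obtain ⟨τ, hτ1, hτ2, hτ3⟩ := place_sing hf hsz (y := y) (by lia) (hEc.trans hy) hi0 (by lia)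
    refine ⟨a (τ (ρ.symm q)), (isSing_iff a _).mp hτ2, ?_⟩
    obtain ⟨b, hb1, hb2⟩ := transfer h1 h2 hpq htp hp'p hq'p ht'p τ a hτ1 rfl
    exact ⟨b, hb1.trans hτ3, hb2⟩

/-- what is used of the two steps -/
def Steps (f : (Fin N → A) → B) : Prop := ∀ (a : Fin N → A) (y : A), 5 ≤ mul a y →
    ((∀ v, mul a v ≠ 1) → ∀ x, x ≠ y → 0 < mul a x → ∃ b : Fin N → A, f b = f a ∧
      ∀ v, mul b v + (if y = v then 1 else 0) = mul a v + (if x = v then 1 else 0)) ∧
    ((∃ v, mul a v = 1) → ∃ x, mul a x = 1 ∧ ∃ b : Fin N → A, f b = f a ∧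
      ∀ v, mul b v + (if y = v then 1 else 0) = mul a v + (if x = v then 1 else 0))

theorem remove_sing [Fintype A] {f : (Fin N → A) → B} (hS : Steps f)
    (hN : Fintype.card A * 4 < N) :
    ∀ (r : ℕ) (a : Fin N → A), (univ.filter fun v => mul a v = 1).card = r →
      ∃ b : Fin N → A, f b = f a ∧ (∀ v, mul b v ≠ 1) ∧ ∀ v, mul b v = 0 ↔ mul a v = 0 := by
  classical
  intro r
  induction r with
  | zero =>
    intro a ha
    rw [card_eq_zero, filter_eq_empty_iff] at ha
    exact ⟨a, rfl, fun v => ha (mem_univ v), fun v => Iff.rfl⟩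
  | succ r ih =>
    intro a ha
    obtain ⟨y, hy⟩ := exists_big a hN
    obtain ⟨v, hv⟩ := card_pos.mp (show 0 < (univ.filter fun v => mul a v = 1).card by lia)
    obtain ⟨x, hx, b, hb1, hb2⟩ := (hS a y hy).2 ⟨v, (mem_filter.mp hv).2⟩
    have hxy : y ≠ x := fun he => by rw [he] at hy; lia
    have by' : mul b y + 1 = mul a y := by
      have := hb2 y
      rw [if_pos rfl, if_neg hxy.symm] at this
      lia
    have bx : mul b x = 2 := by
      have := hb2 x
      rw [if_neg hxy, if_pos rfl] at this
      lia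
    have bo : ∀ v, v ≠ x → v ≠ y → mul b v = mul a v := by
      intro v h1 h2
      have := hb2 v
      rw [if_neg h2.symm, if_neg h1.symm] at this
      lia
    have hcard : (univ.filter fun v => mul b v = 1).card = r := by
      have : (univ.filter fun v => mul b v = 1) = (univ.filter fun v => mul a v = 1).erase x := by
        ext v
        simp only [mem_filter, mem_univ, true_and, mem_erase]
        rcases eq_or_ne v x with rfl | hvx
        · simp [bx]
        · rcases eq_or_ne v y with rfl | hvy
          · constructor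
            · intro h; lia
            · rintro ⟨_, h⟩; lia
          · rw [bo v hvx hvy]; simp [hvx]
      have hxm : x ∈ univ.filter fun v => mul a v = 1 := mem_filter.mpr ⟨mem_univ _, hx⟩
      rw [this, card_erase_of_mem hxm, ha]
      rfl
    obtain ⟨b', h1, h2, h3⟩ := ih b hcard
    refine ⟨b', h1.trans hb1, h2, fun v => ?_⟩
    rw [h3]
    rcases eq_or_ne v x with rfl | hvx
    · lia
    · rcases eq_or_ne v y with rfl | hvy
      · lia
      · rw [bo v hvx hvy]

theorem to_fat [Fintype A] {f : (Fin N → A) → B} (hf : DetCS f) (hS : Steps f)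
    {e : Fin N → A} (he : ∀ v, mul e v = 0 ∨ 4 ≤ mul e v) :
    ∀ (r : ℕ) (a : Fin N → A), ∑ v, (mul a v - mul e v) = r → (∀ v, mul a v ≠ 1) →
      (∀ v, mul a v = 0 ↔ mul e v = 0) → f a = f e := by
  classical
  intro r
  induction r with
  | zero =>
    intro a ha hs h0
    rw [sum_eq_zero_iff] at ha
    apply eq_of_mul hf hs
    have hle : ∀ v ∈ (univ : Finset A), mul a v ≤ mul e v := fun v hv => by
      have := ha v hv; lia
    have hsum : ∑ v, mul a v = ∑ v, mul e v := by rw [sum_mul, sum_mul]
    intro v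
    exact (sum_eq_sum_iff_of_le hle).mp hsum v (mem_univ v)
  | succ r ih =>
    intro a ha hs h0
    obtain ⟨y, hy⟩ : ∃ y, mul e y < mul a y := by
      by_contra hcon
      push Not at hcon
      have : ∑ v, (mul a v - mul e v) = 0 := sum_eq_zero fun v _ => by have := hcon v; lia
      lia
    obtain ⟨x, hx⟩ : ∃ x, mul a x < mul e x := by
      by_contra hcon
      push Not at hcon
      have hsum : ∑ v, mul e v = ∑ v, mul a v := by rw [sum_mul, sum_mul]
      have := (sum_eq_sum_iff_of_le (fun v _ => hcon v)).mp hsum y (mem_univ y)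
      lia
    have hxy : x ≠ y := fun h => by rw [h] at hx; lia
    have hy5 : 5 ≤ mul a y := by
      rcases he y with h | h
      · have := (h0 y).mpr h; lia
      · lia
    have hx2 : 0 < mul a x := by
      rcases Nat.eq_zero_or_pos (mul a x) with h | h
      · have := (h0 x).mp h; lia
      · exact h
    obtain ⟨b, hb1, hb2⟩ := (hS a y hy5).1 hs x hxy hx2
    have hsx := hs x
    have by' : mul b y + 1 = mul a y := by
      have := hb2 y
      rw [if_pos rfl, if_neg hxy] at this
      lia
    have bx : mul b x = mul a x + 1 := by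
      have := hb2 x
      rw [if_neg hxy.symm, if_pos rfl] at this
      lia
    have bo : ∀ v, v ≠ x → v ≠ y → mul b v = mul a v := by
      intro v h1 h2
      have := hb2 v
      rw [if_neg h2.symm, if_neg h1.symm] at this
      lia
    rw [← hb1]
    apply ih b
    · have h4 : ∀ v, (mul b v - mul e v) + (if v = y then 1 else 0) = mul a v - mul e v := by
        intro v
        rcases eq_or_ne v x with rfl | hvx
        · rw [if_neg hxy]; lia
        · rcases eq_or_ne v y with rfl | hvy
          · rw [if_pos rfl]; lia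
          · rw [if_neg hvy, bo v hvx hvy]; lia
      have h5 : ∑ v, (mul b v - mul e v) + ∑ v, (if v = y then 1 else 0) =
          ∑ v, (mul a v - mul e v) := by
        rw [← sum_add_distrib]
        exact sum_congr rfl fun v _ => h4 v
      rw [ha] at h5
      simp at h5
      exact h5
    · intro v
      rcases eq_or_ne v x with rfl | hvx
      · lia
      · rcases eq_or_ne v y with rfl | hvy
        · lia
        · rw [bo v hvx hvy]; exact hs v
    · intro v
      rw [← h0]
      rcases eq_or_ne v x with rfl | hvx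
      · lia
      · rcases eq_or_ne v y with rfl | hvy
        · lia
        · rw [bo v hvx hvy]

/-- a fat tuple with given set of entries -/
theorem exists_fat [Fintype A] (a : Fin N → A) (hN : Fintype.card A * 4 < N) :
    ∃ e : Fin N → A, (∀ v, mul e v = 0 ∨ 4 ≤ mul e v) ∧ ∀ v, mul e v = 0 ↔ mul a v = 0 := by
  classical
  set S : Finset A := univ.filter fun v => 0 < mul a v with hS
  have hSc : S.card ≤ Fintype.card A := card_le_univ _
  obtain ⟨j⟩ : Nonempty (S × Fin 4 ↪ Fin N) := by
    rw [Function.Embedding.nonempty_iff_card_le]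
    simp only [Fintype.card_prod, Fintype.card_coe, Fintype.card_fin]
    lia
  set s0 : A := a ⟨0, by lia⟩ with hs0
  have hs0S : 0 < mul a s0 := (mul_pos_iff a s0).mpr ⟨_, rfl⟩
  set e : Fin N → A := Function.extend j (fun x => (x.1 : A)) (fun _ => s0) with he
  have e1 : ∀ x, e (j x) = x.1 := fun x => j.injective.extend_apply _ _ _
  have e2 : ∀ i, 0 < mul a (e i) := by
    intro i
    by_cases hi : ∃ x, j x = i
    · obtain ⟨x, rfl⟩ := hi
      rw [e1]
      exact (mem_filter.mp x.1.2).2
    · rw [he, Function.extend_apply' _ _ _ hi]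
      exact hs0S
  have e3 : ∀ v, 0 < mul a v → 4 ≤ mul e v := by
    intro v hv
    have hvS : v ∈ S := mem_filter.mpr ⟨mem_univ _, hv⟩
    have : ((univ : Finset (Fin 4)).image fun k => j (⟨v, hvS⟩, k)).card = 4 := by
      rw [card_image_of_injective, card_univ, Fintype.card_fin]
      intro k k' hkk
      have := j.injective hkk
      simpa using this
    rw [← this]
    apply card_le_card
    intro i hi
    obtain ⟨k, _, rfl⟩ := mem_image.mp hi
    rw [mem_filter]
    exact ⟨mem_univ _, e1 _⟩
  have e4 : ∀ v, mul a v = 0 → mul e v = 0 := by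
    intro v hv
    by_contra hcon
    obtain ⟨i, hi⟩ := (mul_pos_iff e v).mp (Nat.pos_of_ne_zero hcon)
    have := e2 i
    rw [hi] at this
    lia
  refine ⟨e, fun v => ?_, fun v => ⟨fun h => ?_, e4 v⟩⟩
  · rcases Nat.eq_zero_or_pos (mul a v) with h | h
    · exact Or.inl (e4 v h)
    · exact Or.inr (e3 v h)
  · rcases Nat.eq_zero_or_pos (mul a v) with h' | h'
    · exact h'
    · have := e3 v h'; lia

/-- If the steps are available then `f` depends only on the set of its arguments. -/
theorem support_determined [Fintype A] {f : (Fin N → A) → B} (hf : DetCS f) (hS : Steps f)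
    (hN : Fintype.card A * 4 < N) (a b : Fin N → A) (hab : ∀ v, mul a v = 0 ↔ mul b v = 0) :
    f a = f b := by
  obtain ⟨a', h1, h2, h3⟩ := remove_sing hS hN _ a rfl
  obtain ⟨b', h4, h5, h6⟩ := remove_sing hS hN _ b rfl
  obtain ⟨e, h7, h8⟩ := exists_fat a hN
  have e1 := to_fat hf hS h7 _ a' rfl h2 fun v => by rw [h3, h8]
  have e2 := to_fat hf hS h7 _ b' rfl h5 fun v => by rw [h6, h8, hab]
  rw [← h1, ← h4, e1, e2]

end Pool.Agent.D0H14.CS
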